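import Pool.Agent.R917.MT

set_option autoImplicit false
set_option linter.unusedSectionVars false

/-!
# Abelian varieties of spin type
-/

open Module Function TensorProduct Matrix

noncomputable section

namespace Pool.Agent.R917

open Pool.Agent.Y102 Pool.Agent.W516.DR Pool.Agent.H204R3.GP Pool.Agent.W516.KC
  Pool.Agent.H204R3.SP Pool.Agent.TH119.MX

variable {g : ℕ} {A : AbVar g}

/-- If the complex Lie algebra is perfect, the rational one is perfect. -/
theorem perfect_of {S : Submodule ℚ (Module.End ℚ A.H1)}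
    (h : cx S ≤ Submodule.span ℂ {z | ∃ x ∈ cx S, ∃ y ∈ cx S, z = x * y - y * x}) :
    S ≤ Submodule.span ℚ {Z | ∃ X ∈ S, ∃ Y ∈ S, Z = X * Y - Y * X} := by
  intro X hX
  refine mem_of_bc ?_
  have h1 := h (bc_mem hX)
  refine (Submodule.span_le.2 ?_) h1
  rintro _ ⟨x, hx, y, hy, rfl⟩
  refine cx_br (S := S) (T := cx (Submodule.span ℚ {Z | ∃ X ∈ S, ∃ Y ∈ S, Z = X * Y - Y * X}))
    (fun X hX Y hY => ?_) x hx y hy
  rw [← bc_br]
  exact bc_mem (Submodule.subset_span ⟨X, hX, Y, hY, rfl⟩)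

/-- The Lie algebra of the complex structures and the scalars of an abelian variety of spin type
are in the Lie algebra of every algebraic group which contains the periods. -/
theorem spin_lie {N k r : ℕ} {E : Fin N → Matrix (Fin (2 * g)) (Fin (2 * g)) ℂ} {c : Fin N → Fin k}
    (hr : 3 ≤ r) (hr5 : r ≠ 5) (h1 : ∀ i, E i * E i = 1)
    (h2 : ∀ i j, i ≠ j → E i * E j = -(E j * E i))
    (hc : ∀ σ, (Finset.univ.filter fun j => c j = σ).card = r)
    (hl : Submodule.span ℂ {Y | ∃ X ∈ A.NA, Y = toC X} =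
      Submodule.span ℂ {Y | ∃ i j, i ≠ j ∧ c i = c j ∧ Y = E i * E j})
    {H : Set (Matrix (Fin (2 * g)) (Fin (2 * g)) ℂ)} (h : Pt A H) :
    A.NA ≤ lieQ H ∧ (1 : Module.End ℚ A.H1) ∈ lieQ H := by
  refine h.lie (fun hf => hf.of_spinMat hr hr5 h1 h2 hc hl) (perfect_of ?_)
  have hE : SP.CE (fun i => matE (2 * g) (E i)) := ⟨fun i => by rw [← map_mul, h1, map_one],
    fun i j hij => by rw [← map_mul, h2 i j hij, map_neg, map_mul]⟩
  have hcx : cx A.NA = SP.soC (fun i => matE (2 * g) (E i)) c := by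
    rw [← map_lie, hl, Submodule.map_span]
    unfold SP.soC
    congr 1
    ext Y
    constructor
    · rintro ⟨_, ⟨i, j, a, b, rfl⟩, rfl⟩
      exact ⟨i, j, a, b, map_mul (matE (2 * g)) _ _⟩
    · rintro ⟨i, j, a, b, rfl⟩
      exact ⟨_, ⟨i, j, a, b, rfl⟩, map_mul (matE (2 * g)) _ _⟩
  rcases subsingleton_or_nontrivial (ℂ ⊗[ℚ] A.H1) with hs | hn
  · intro X _
    have h0 : X = 0 := by
      refine LinearMap.ext fun x => ?_
      exact Subsingleton.elim _ _
    rw [h0]
    exact Submodule.zero_mem _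
  · rw [hcx]
    exact SP.soC_perfect hE fun i => by rw [hc]; exact hr

end Pool.Agent.R917
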