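import Pool.Agent.R917.MTComm

set_option autoImplicit false
set_option linter.unusedSectionVars false

/-!
# Bridges to the statements
-/

open Module Function TensorProduct Matrix

noncomputable section

namespace Pool.Agent.R917

open Pool.Agent.Y102 Pool.Agent.W516.DR Pool.Agent.H204R3.GP Pool.Agent.W516.KC
  Pool.Agent.H204R3.SP Pool.Agent.TH119.MX

variable {g : ℕ} {A : AbVar g} {κ : Type} [Fintype κ] [DecidableEq κ] {N : ℕ}
  {u : Fin N → MultilinearMap ℚ (fun _ : κ => A.H1) ℚ}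

theorem Phi_eq (φ : MultilinearMap ℚ (fun _ : κ => A.H1) ℚ) (v : κ → Fin g → ℂ) :
    A.Phi φ v = ∑ J : κ → Fin (2 * g), ((φ (fun p => Pi.single (J p) 1) : ℚ) : ℝ) *
      ∏ p, A.lam.repr (v p) (J p) := by
  unfold AbVar.Phi
  rw [_root_.sum_apply]
  refine Finset.sum_congr rfl fun J _ => ?_
  rw [_root_.smul_apply, MultilinearMap.compLinearMap_apply, MultilinearMap.mkPiAlgebra_apply,
    smul_eq_mul]
  congr 3
  funext p
  unfold AbVar.bas
  rw [Pi.basisFun_apply]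

theorem bridge {G : Subgroup (GL (Fin N) ℂ)}
    (hG : ∃ I : Set (MvPolynomial (Fin N × Fin N) ℚ), ∀ x : GL (Fin N) ℂ, x ∈ G ↔
      ∀ p ∈ I, MvPolynomial.aeval
        (fun b : Fin N × Fin N => (x : Matrix (Fin N) (Fin N) ℂ) b.1 b.2) p = 0)
    (hc : ∀ x ∈ G, ∀ y ∈ G, x * y = y * x) {P T : Matrix (Fin N) (Fin N) ℂ} (hP : IsPer A u P)
    (hT : ∀ i j, IsAlgebraic ℚ (T i j)) {s : ℂ} (hs : s ≠ 0) {x : GL (Fin N) ℂ} (hx : x ∈ G)
    (hxT : (x : Matrix (Fin N) (Fin N) ℂ) = (s • P) * T) :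
    gU A (Submodule.span ℚ (Set.range u)) ≤
      nU A (Submodule.span ℚ (Set.range u)) ⊔ cU A (Submodule.span ℚ (Set.range u)) := by
  have hdet : (s • P).det * T.det ≠ 0 := by
    rw [← Matrix.det_mul, ← hxT]
    exact (Matrix.GeneralLinearGroup.det x).ne_zero
  obtain ⟨T', h3, h4⟩ := alg_inv hT (right_ne_zero_of_mul hdet)
  have hP0 : P.det ≠ 0 := by
    intro h0
    apply left_ne_zero_of_mul hdet
    rw [Matrix.det_smul, h0, mul_zero]
  have hP1 : IsUnit P.det := isUnit_iff_ne_zero.2 hP0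
  refine gU_le_of (H := {M : Matrix (Fin N) (Fin N) ℂ | ∃ x ∈ G, (x : Matrix _ _ ℂ) = M})
    (algGrp_of hG) ?_ hP (Matrix.mul_nonsing_inv _ hP1) (Matrix.nonsing_inv_mul _ hP1) hs h3 h4
    ⟨x, hx, hxT⟩
  rintro _ ⟨a, ha, rfl⟩ _ ⟨b, hb, rfl⟩
  rw [← Units.val_mul, hc a ha b hb, Units.val_mul]

/-- The group which contains the Hodge structure, with twists. -/
theorem exists_mt (hu : LinearIndependent ℚ u) (hU : ∀ z : ℂ, z ≠ 0 → ∃ M, IsHM A u z M)
    (hmain : gU A (Submodule.span ℚ (Set.range u)) ≤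
      nU A (Submodule.span ℚ (Set.range u)) ⊔ cU A (Submodule.span ℚ (Set.range u))) :
    ∃ G : Subgroup (GL (Fin N) ℂ), (∃ I : Set (MvPolynomial (Fin N × Fin N) ℚ),
      ∀ x : GL (Fin N) ℂ, x ∈ G ↔ ∀ p ∈ I, MvPolynomial.aeval
        (fun b : Fin N × Fin N => (x : Matrix (Fin N) (Fin N) ℂ) b.1 b.2) p = 0) ∧
      (∀ x ∈ G, ∀ y ∈ G, x * y = y * x) ∧
      ∀ (z : ℂ) (M : Matrix (Fin N) (Fin N) ℝ), z ≠ 0 → IsHM A u z M → ∀ c : ℂ, c ≠ 0 →
        ∃ x ∈ G, (x : Matrix (Fin N) (Fin N) ℂ) = c • M.map (algebraMap ℝ ℂ) := by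
  obtain ⟨G', hG', hc', hM⟩ := exists_comm_group hu hU hmain
  refine ⟨G', hG', hc', fun z M hz hzM c hr => ?_⟩
  obtain ⟨M', hM'⟩ := hU z⁻¹ (inv_ne_zero hz)
  have hinv : M' * M = 1 := by
    have h1 := hzM.mul hM'
    rw [mul_inv_cancel₀ hz] at h1
    exact h1.unique hu isHM_one
  have hinv' : M * M' = 1 := mul_eq_one_comm.1 hinv
  have hmap : ∀ X Y : Matrix (Fin N) (Fin N) ℝ, X * Y = 1 →
      X.map (algebraMap ℝ ℂ) * Y.map (algebraMap ℝ ℂ) = 1 := by
    intro X Y h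
    rw [← Matrix.map_mul, h, Matrix.map_one _ (map_zero _) (map_one _)]
  let y : GL (Fin N) ℂ :=
    { val := c • M.map (algebraMap ℝ ℂ)
      inv := c⁻¹ • M'.map (algebraMap ℝ ℂ)
      val_inv := by
        rw [Matrix.smul_mul, Matrix.mul_smul, hmap _ _ hinv', smul_smul, mul_inv_cancel₀ hr,
          one_smul]
      inv_val := by
        rw [Matrix.smul_mul, Matrix.mul_smul, hmap _ _ hinv, smul_smul, inv_mul_cancel₀ hr,
          one_smul] }
  exact ⟨y, hM z M hzM _ y rfl, rfl⟩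

/-- If there are no central skew-symmetric endomorphisms, the Hodge structure is trivial. -/
theorem trivial_of (hu : LinearIndependent ℚ u) (hU : ∀ z : ℂ, z ≠ 0 → ∃ M, IsHM A u z M)
    (hmain : gU A (Submodule.span ℚ (Set.range u)) ≤
      nU A (Submodule.span ℚ (Set.range u)) ⊔ cU A (Submodule.span ℚ (Set.range u)))
    (hZ : ∀ X ∈ A.ZA, X = 0) {z : ℂ} {M : Matrix (Fin N) (Fin N) ℝ} (hM : IsHM A u z M) :
    M = (‖z‖ ^ Fintype.card κ) • (1 : Matrix (Fin N) (Fin N) ℝ) := by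
  have hcU : cU A (Submodule.span ℚ (Set.range u)) ≤ ⊥ := by
    intro X hX
    refine hZ X ⟨fun Y hY => hX.1.2 Y (A.LA_le_NA hY), A.NA_skew hX.1.1, fun Q hQ => ?_⟩
    exact A.NA_comm hX.1.1 hQ
  obtain ⟨R, hR1, hR2⟩ := exists_JU hu fun θ => hU _ (Complex.exp_ne_zero _)
  have hmat : ∀ f : ℝ →ₗ[ℚ] ℚ, IsMat u (A.cmpE f AbVar.JJ) (R.map f) := fun f i =>
    dact_JJ hR1 f i
  have hR0 : R = 0 := by
    ext j i
    refine exists_sep fun f => ?_
    have h1 : A.cmpE f AbVar.JJ ∈ gU A (Submodule.span ℚ (Set.range u)) :=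
      ⟨A.MA_le_NA (A.J_mem f), fun φ hφ => (hmat f).mem hφ⟩
    have h2 := hmain h1
    rw [le_bot_iff.1 hcU, sup_bot_eq] at h2
    have h3 : IsMat u (A.cmpE f AbVar.JJ) 0 := fun i => by
      rw [h2.2 _ (Submodule.subset_span ⟨i, rfl⟩)]
      exact (Finset.sum_eq_zero fun j _ => by rw [Matrix.zero_apply, zero_smul]).symm
    have h4 := congrFun (congrFun ((hmat f).unique hu h3) j) i
    exact h4
  subst hR0
  have hexp : ∀ θ : ℝ, ∃ M, IsHM A u (Complex.exp (θ * Complex.I)) M := fun θ =>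
    hU _ (Complex.exp_ne_zero _)
  choose E hE using hexp
  have h1 := hR2 E hE
  have h2 := exp_of_der (M := E) (R := 0) ?_ ?_ h1 (Complex.arg z)
  · have h4 := (isHM_real (A := A) (u := u) ‖z‖).mul (hE (Complex.arg z))
    rw [Complex.norm_mul_exp_arg_mul_I] at h4
    rw [hM.unique hu h4, h2, smul_zero, NormedSpace.exp_zero, Matrix.one_mul]
  · refine (hE 0).unique hu ?_
    have h3 : Complex.exp (((0 : ℝ) : ℂ) * Complex.I) = 1 := by simp
    rw [h3]
    exact isHM_one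
  · intro s t
    refine (hE (s + t)).unique hu ?_
    have h3 : Complex.exp (((s + t : ℝ) : ℂ) * Complex.I) =
        Complex.exp (t * Complex.I) * Complex.exp (s * Complex.I) := by
      rw [← Complex.exp_add]
      congr 1
      push_cast
      ring
    rw [h3]
    exact (hE t).mul (hE s)

/-- The elements of the subspace are de Rham-Betti classes if the periods are algebraic. -/
theorem compat_of {P T : Matrix (Fin N) (Fin N) ℂ} (hP : IsPer A u P) {s : ℂ} (hs : s ≠ 0)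
    (hT : ∀ i j, T i j ∈ QA) (h1 : (s • P) * T = 1) (m : Fin N) :
    ∃ a : (κ → Fin g ⊕ Fin g) → QBar, ∀ v : κ → A.H1, s⁻¹ * (u m v : ℂ) =
      ∑ J, algebraMap QBar ℂ (a J) * ∏ l, A.dR (J l) (v l) := by
  obtain ⟨a, ha⟩ := hP
  let t : Fin N → QBar := fun i => ⟨T i m, hT i m⟩
  refine ⟨fun J => ∑ i, t i * a i J, fun v => ?_⟩
  have h2 : (u m v : ℂ) = ∑ i, s * T i m * ∑ j, P j i * ((u j v : ℚ) : ℂ) := by
    simp only [Finset.mul_sum]
    rw [Finset.sum_comm]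
    have h3 : ∀ j, ∑ i, s * T i m * (P j i * ((u j v : ℚ) : ℂ)) =
        (1 : Matrix (Fin N) (Fin N) ℂ) j m * ((u j v : ℚ) : ℂ) := by
      intro j
      rw [← h1, Matrix.mul_apply, Finset.sum_mul]
      refine Finset.sum_congr rfl fun i _ => ?_
      rw [Matrix.smul_apply, smul_eq_mul]
      ring
    rw [Finset.sum_congr rfl fun j _ => h3 j, Finset.sum_eq_single m]
    · rw [Matrix.one_apply_eq, one_mul]
    · intro j _ hj
      rw [Matrix.one_apply_ne hj, zero_mul]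
    · intro h
      exact absurd (Finset.mem_univ _) h
  rw [h2, Finset.mul_sum]
  simp only [ha, map_sum, map_mul, Finset.sum_mul]
  rw [Finset.sum_comm]
  refine Finset.sum_congr rfl fun i _ => ?_
  rw [Finset.mul_sum, Finset.mul_sum]
  refine Finset.sum_congr rfl fun J _ => ?_
  have h4 : algebraMap QBar ℂ (t i) = T i m := rfl
  rw [h4]
  field_simp

end Pool.Agent.R917
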