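import Pool.Agent.R917.GrpLie

set_option autoImplicit false
set_option linter.unusedSectionVars false

/-!
# The Mumford-Tate group of an abelian variety and algebraic groups which contain the periods
-/

open Module Function TensorProduct Matrix

noncomputable section

namespace Pool.Agent.R917

open Pool.Agent.Y102 Pool.Agent.W516.DR Pool.Agent.H204R3.GP Pool.Agent.W516.KC
  Pool.Agent.H204R3.SP Pool.Agent.TH119.MX

variable {g : ℕ} (A : AbVar g)

/-- The action of a complex number on the first cohomology: the Hodge structure. -/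
def hm (z : ℂ) : Matrix (Fin (2 * g)) (Fin (2 * g)) ℂ :=
  Matrix.of fun i j => ((A.lam.repr (z • A.lam i) j : ℝ) : ℂ)

theorem hm_apply (z : ℂ) (i j : Fin (2 * g)) :
    hm A z i j = ((A.lam.repr (z • A.lam i) j : ℝ) : ℂ) := rfl

theorem hm_one : hm A 1 = 1 := by
  ext i j
  rw [hm_apply, one_smul, Basis.repr_self, Matrix.one_apply, Finsupp.single_apply]
  split_ifs <;> simp

theorem hm_zero : hm A 0 = 0 := by
  ext i j
  rw [hm_apply, zero_smul, map_zero]
  simp

theorem hm_add (z w : ℂ) : hm A (z + w) = hm A z + hm A w := by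
  ext i j
  rw [Matrix.add_apply, hm_apply, hm_apply, hm_apply, add_smul, map_add, Finsupp.add_apply]
  push_cast
  rfl

theorem hm_real (r : ℝ) (z : ℂ) : hm A ((r : ℂ) * z) = (r : ℂ) • hm A z := by
  ext i j
  rw [Matrix.smul_apply, hm_apply, hm_apply, mul_smul, Complex.coe_smul, map_smul,
    Finsupp.smul_apply, smul_eq_mul, smul_eq_mul, Complex.ofReal_mul]

theorem hm_mul (z w : ℂ) : hm A (z * w) = hm A z * hm A w := by
  ext i j
  rw [Matrix.mul_apply]
  have h1 : (z * w) • A.lam i = ∑ k, A.lam.repr (z • A.lam i) k • (w • A.lam k) := by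
    rw [mul_comm, mul_smul]
    conv_lhs => rw [← A.lam.sum_repr (z • A.lam i), Finset.smul_sum]
    exact Finset.sum_congr rfl fun k _ => smul_comm _ _ _
  rw [hm_apply, h1, map_sum, Finsupp.finsetSum_apply]
  push_cast
  refine Finset.sum_congr rfl fun k _ => ?_
  rw [map_smul, Finsupp.smul_apply, smul_eq_mul, Complex.ofReal_mul, hm_apply, hm_apply]

/-- The ring homomorphism. -/
def hmR : ℂ →+* Matrix (Fin (2 * g)) (Fin (2 * g)) ℂ where
  toFun := hm A
  map_one' := hm_one A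
  map_mul' := hm_mul A
  map_zero' := hm_zero A
  map_add' := hm_add A

theorem hm_eq (z : ℂ) : hm A z = (z.re : ℂ) • 1 + (z.im : ℂ) • hm A Complex.I := by
  conv_lhs => rw [← Complex.re_add_im z]
  rw [hm_add, hm_real]
  have h1 := hm_real A z.re 1
  rw [mul_one, hm_one] at h1
  rw [h1]

theorem continuous_hm : Continuous (hm A) := by
  have h1 : hm A = fun z => (z.re : ℂ) • 1 + (z.im : ℂ) • hm A Complex.I := by
    funext z
    exact hm_eq A z
  rw [h1]
  fun_prop

section norms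

attribute [local instance] Matrix.linftyOpNormedRing Matrix.linftyOpNormedAlgebra

theorem hm_exp (z : ℂ) : hm A (Complex.exp z) = NormedSpace.exp (hm A z) := by
  rw [Complex.exp_eq_exp_ℂ]
  exact NormedSpace.map_exp (hmR A) (continuous_hm A) z

end norms

/-- A finite family of real numbers, in terms of a basis over the rational numbers. -/
theorem exists_coords {ι : Type} [Fintype ι] (r : ι → ℝ) :
    ∃ (s : Finset (Basis.ofVectorSpaceIndex ℚ ℝ)), ∀ i, r i =
      ∑ k ∈ s, (((Basis.ofVectorSpace ℚ ℝ).coord k (r i) : ℚ) : ℝ) * Basis.ofVectorSpace ℚ ℝ k := by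
  classical
  refine ⟨Finset.univ.biUnion fun i => ((Basis.ofVectorSpace ℚ ℝ).repr (r i)).support, fun i => ?_⟩
  have h1 := (Basis.ofVectorSpace ℚ ℝ).linearCombination_repr (r i)
  rw [Finsupp.linearCombination_apply, Finsupp.sum_of_support_subset (s :=
    Finset.univ.biUnion fun i => ((Basis.ofVectorSpace ℚ ℝ).repr (r i)).support) _
    (fun k hk => Finset.mem_biUnion.2 ⟨i, Finset.mem_univ _, hk⟩) (fun k a => a • _)
    (fun k _ => zero_smul ℚ _)] at h1
  conv_lhs => rw [← h1]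
  refine Finset.sum_congr rfl fun k _ => ?_
  rw [Basis.coord_apply, Rat.smul_def]

variable {A} {H : Set (Matrix (Fin (2 * g)) (Fin (2 * g)) ℂ)}

theorem stab_sum {ι : Type} (s : Finset ι) {d : ℕ} (Y : ι → Matrix (Fin (2 * g)) (Fin (2 * g)) ℂ)
    (h : ∀ k ∈ s, Stab H d (Y k)) : Stab H d (∑ k ∈ s, Y k) := by
  classical
  induction s using Finset.induction_on with
  | empty =>
    rw [Finset.sum_empty]
    exact Stab.zero
  | insert a s ha ih =>
    rw [Finset.sum_insert ha]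
    exact (h a (Finset.mem_insert_self _ _)).add
      (ih fun k hk => h k (Finset.mem_insert_of_mem hk))

/-- The complex structure is in the Lie algebra of the group. -/
theorem stab_I (h : A.NA ≤ lieQ H) (d : ℕ) : Stab H d (hm A Complex.I) := by
  classical
  obtain ⟨s, hs⟩ := exists_coords (fun p : Fin (2 * g) × Fin (2 * g) =>
    A.lam.repr (Complex.I • A.lam p.1) p.2)
  let f : Basis.ofVectorSpaceIndex ℚ ℝ → (ℝ →ₗ[ℚ] ℚ) := fun k => (Basis.ofVectorSpace ℚ ℝ).coord k
  have h1 : hm A Complex.I = ∑ k ∈ s, ((Basis.ofVectorSpace ℚ ℝ k : ℝ) : ℂ) •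
      (toC (A.cmpE (f k) AbVar.JJ))ᵀ := by
    ext i j
    rw [Matrix.sum_apply, hm_apply]
    have h2 := hs (i, j)
    rw [h2]
    push_cast
    refine Finset.sum_congr rfl fun k _ => ?_
    rw [Matrix.smul_apply, Matrix.transpose_apply, smul_eq_mul, mul_comm]
    congr 1
    unfold toC
    rw [Matrix.of_apply, AbVar.cmpE_apply]
    have h3 : A.per (Pi.single i 1) = A.lam i := by
      have h4 := A.per_bas i
      unfold AbVar.bas at h4
      rwa [Pi.basisFun_apply] at h4
    rw [h3]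
    rfl
  rw [h1]
  exact stab_sum s _ fun k _ => (h (A.MA_le_NA (A.J_mem (f k))) d).smul _

/-- The group contains the image of the Deligne torus. -/
theorem hm_mem (hH : AlgGrp QQ H) (h : A.NA ≤ lieQ H) (h1 : (1 : Module.End ℚ A.H1) ∈ lieQ H)
    {z : ℂ} (hz : z ≠ 0) : hm A z ∈ H := by
  rw [← Complex.exp_log hz, hm_exp]
  refine exp_mem hH fun d => ?_
  rw [hm_eq]
  refine Stab.add (Stab.smul _ ?_) ((stab_I h d).smul _)
  have h2 := h1 d
  rw [toC_one, Matrix.transpose_one] at h2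
  exact h2

/-! ### From subgroups of the general linear group -/

/-- An algebraic group over the rational numbers. -/
theorem algGrp_of {R : Type} [Fintype R] [DecidableEq R] {G : Subgroup (GL R ℂ)}
    (hG : ∃ I : Set (MvPolynomial (R × R) ℚ), ∀ x : GL R ℂ, x ∈ G ↔
      ∀ p ∈ I, MvPolynomial.aeval (fun b : R × R => (x : Matrix R R ℂ) b.1 b.2) p = 0) :
    AlgGrp QQ {M : Matrix R R ℂ | ∃ x ∈ G, (x : Matrix R R ℂ) = M} where
  one := ⟨1, one_mem G, Units.val_one⟩
  mul := by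
    rintro _ ⟨x, hx, rfl⟩ _ ⟨y, hy, rfl⟩
    exact ⟨x * y, mul_mem hx hy, Units.val_mul x y⟩
  inv := by
    rintro _ ⟨x, hx, rfl⟩
    exact ⟨_, ⟨x⁻¹, inv_mem hx, rfl⟩, x.val_inv, x.inv_val⟩
  alg := by
    obtain ⟨I, hI⟩ := hG
    refine ⟨(MvPolynomial.map (algebraMap ℚ ℂ)) '' I, ?_, fun M => ?_⟩
    · rintro _ ⟨p, _, rfl⟩ m
      rw [MvPolynomial.coeff_map]
      exact ⟨_, rfl⟩
    · have key : ∀ (M : Matrix R R ℂ) (p : MvPolynomial (R × R) ℚ),
          MvPolynomial.eval (fun b : R × R => M b.1 b.2) (MvPolynomial.map (algebraMap ℚ ℂ) p) =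
            MvPolynomial.aeval (fun b : R × R => M b.1 b.2) p := by
        intro M p
        rw [MvPolynomial.eval_map]
        rfl
      constructor
      · rintro ⟨x, hx, rfl⟩
        refine ⟨⟨(x⁻¹ : GL R ℂ), x.val_inv, x.inv_val⟩, ?_⟩
        rintro _ ⟨p, hp, rfl⟩
        rw [key]
        exact (hI x).1 hx p hp
      · rintro ⟨⟨M', h1, h2⟩, h3⟩
        refine ⟨⟨M, M', h1, h2⟩, (hI _).2 fun p hp => ?_, rfl⟩
        have h4 := h3 _ ⟨p, hp, rfl⟩
        rw [key] at h4
        exact h4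

/-- The inverse of a matrix of algebraic numbers. -/
theorem alg_inv {n : ℕ} {T : Matrix (Fin n) (Fin n) ℂ} (hT : ∀ i j, IsAlgebraic ℚ (T i j))
    (hdet : T.det ≠ 0) : ∃ T' : Matrix (Fin n) (Fin n) ℂ, T * T' = 1 ∧ ∀ i j, T' i j ∈ QA := by
  let K : IntermediateField ℚ ℂ := algebraicClosure ℚ ℂ
  let S : Matrix (Fin n) (Fin n) K := Matrix.of fun i j => ⟨T i j, mem_algebraicClosure_iff.2 (hT i j)⟩
  have hS : S.map (algebraMap K ℂ) = T := by
    ext i j
    rfl
  have hdS : S.det ≠ 0 := by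
    intro h0
    apply hdet
    rw [← hS, ← RingHom.mapMatrix_apply, ← RingHom.map_det, h0, map_zero]
  refine ⟨(S⁻¹).map (algebraMap K ℂ), ?_, fun i j => ?_⟩
  · rw [← hS, ← Matrix.map_mul, Matrix.mul_nonsing_inv _ (isUnit_iff_ne_zero.2 hdS),
      Matrix.map_one _ (map_zero _) (map_one _)]
  · rw [Matrix.map_apply]
    exact (S⁻¹ i j).2

theorem pt_of {G : Subgroup (GL (Fin (2 * g)) ℂ)}
    (hG : ∃ I : Set (MvPolynomial (Fin (2 * g) × Fin (2 * g)) ℚ), ∀ x : GL (Fin (2 * g)) ℂ,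
      x ∈ G ↔ ∀ p ∈ I, MvPolynomial.aeval
        (fun b : Fin (2 * g) × Fin (2 * g) => (x : Matrix _ _ ℂ) b.1 b.2) p = 0)
    {T : Matrix (Fin g ⊕ Fin g) (Fin (2 * g)) ℂ} (hT : ∀ i j, IsAlgebraic ℚ (T i j))
    {x : GL (Fin (2 * g)) ℂ} (hx : x ∈ G) (hxT : (x : Matrix _ _ ℂ) = perMat A * T) :
    Pt A {M : Matrix (Fin (2 * g)) (Fin (2 * g)) ℂ | ∃ x ∈ G, (x : Matrix _ _ ℂ) = M} := by
  refine ⟨algGrp_of hG, ?_⟩
  have h1 : PM A * T.submatrix (eqv g).symm id = perMat A * T := by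
    unfold PM
    rw [Matrix.submatrix_mul_equiv, Matrix.submatrix_id_id]
  have h2 : (T.submatrix (eqv g).symm id).det ≠ 0 := by
    intro h0
    have h3 : (x : Matrix (Fin (2 * g)) (Fin (2 * g)) ℂ).det = 0 := by
      rw [hxT, ← h1, Matrix.det_mul, h0, mul_zero]
    exact (Matrix.GeneralLinearGroup.det x).ne_zero h3
  obtain ⟨T', h3, h4⟩ := alg_inv (T := T.submatrix (eqv g).symm id) (fun i j => hT _ _) h2
  exact ⟨_, T', h3, h4, ⟨x, hx, by rw [hxT, h1]⟩⟩

end Pool.Agent.R917
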