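import Pool.Agent.R917.Struct

set_option autoImplicit false
set_option linter.unusedSectionVars false

/-!
# The logarithmic derivatives of the period matrix of a subobject of a tensor power
-/

open Module Function TensorProduct Matrix

noncomputable section

namespace Pool.Agent.R917

open Pool.Agent.Y102 Pool.Agent.W516.DR Pool.Agent.H204R3.GP Pool.Agent.W516.KC
  Pool.Agent.H204R3.SP

variable {g : ℕ} (A : AbVar g) {κ : Type} [Fintype κ] [DecidableEq κ] {N : ℕ}

/-- `P` is the matrix of the comparison isomorphism of the subspace with the basis `u`, up to the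
choice of a basis of the de Rham realization. -/
def IsPer (u : Fin N → MultilinearMap ℚ (fun _ : κ => A.H1) ℚ) (P : Matrix (Fin N) (Fin N) ℂ) :
    Prop :=
  ∃ a : Fin N → (κ → Fin g ⊕ Fin g) → QBar, ∀ i (v : κ → A.H1),
    ∑ j, P j i * ((u j v : ℚ) : ℂ) = ∑ J, algebraMap QBar ℂ (a i J) * ∏ l, A.dR (J l) (v l)

variable {A} {u : Fin N → MultilinearMap ℚ (fun _ : κ => A.H1) ℚ} {P P' : Matrix (Fin N) (Fin N) ℂ}

theorem per_ext {a : Fin N → (κ → Fin g ⊕ Fin g) → QBar} (ha : ∀ i (v : κ → A.H1),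
    ∑ j, P j i * ((u j v : ℚ) : ℂ) = ∑ J, algebraMap QBar ℂ (a i J) * ∏ l, A.dR (J l) (v l))
    (i : Fin N) (x : κ → ℂ ⊗[ℚ] A.H1) :
    ∑ j, P j i * bcm (Ω := ℂ) (Module.finBasis ℚ A.H1) (u j) x =
      ∑ J, algebraMap QBar ℂ (a i J) * ∏ l, etaL A.basis (J l) (x l) := by
  classical
  let F : MultilinearMap ℂ (fun _ : κ => ℂ ⊗[ℚ] A.H1) ℂ :=
    ∑ j, P j i • bcm (Ω := ℂ) (Module.finBasis ℚ A.H1) (u j)
  let G : MultilinearMap ℂ (fun _ : κ => ℂ ⊗[ℚ] A.H1) ℂ :=
    ∑ J : κ → Fin g ⊕ Fin g, algebraMap QBar ℂ (a i J) •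
      (MultilinearMap.mkPiAlgebra ℂ κ ℂ).compLinearMap (fun l => etaL A.basis (J l))
  have hF : ∀ x, F x = ∑ j, P j i * bcm (Ω := ℂ) (Module.finBasis ℚ A.H1) (u j) x := by
    intro x
    change (∑ j, P j i • bcm (Ω := ℂ) (Module.finBasis ℚ A.H1) (u j)) x = _
    rw [_root_.sum_apply]
    rfl
  have hG : ∀ x, G x = ∑ J, algebraMap QBar ℂ (a i J) * ∏ l, etaL A.basis (J l) (x l) := by
    intro x
    change (∑ J : κ → Fin g ⊕ Fin g, algebraMap QBar ℂ (a i J) •
      (MultilinearMap.mkPiAlgebra ℂ κ ℂ).compLinearMap (fun l => etaL A.basis (J l))) x = _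
    rw [_root_.sum_apply]
    refine Finset.sum_congr rfl fun J _ => ?_
    rw [_root_.smul_apply, MultilinearMap.compLinearMap_apply,
      MultilinearMap.mkPiAlgebra_apply, smul_eq_mul]
  have h1 : F = G := by
    refine Basis.ext_multilinear (fun _ => (Module.finBasis ℚ A.H1).baseChange ℂ) fun I => ?_
    rw [hF, hG]
    have h2 : (fun l => (Module.finBasis ℚ A.H1).baseChange ℂ (I l)) =
        fun l => (1 : ℂ) ⊗ₜ[ℚ] (Module.finBasis ℚ A.H1) (I l) := by
      funext l
      rw [Basis.baseChange_apply]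
    have h3 := ha i (fun l => Module.finBasis ℚ A.H1 (I l))
    rw [h2]
    simp only [Basis.baseChange_apply, bcm_one, etaL_tmul, one_mul, A.coe_basis]
    exact h3
  rw [← hF, ← hG, h1]

/-- The logarithmic derivative of the period matrix acts on the subspace by the logarithmic
derivative of its period matrix. -/
theorem dact_XX (h : IsPer A u P) (h1 : P * P' = 1) (D : Derivation QBar ℂ ℂ)
    (lam : ℂ →ₗ[ℚ] ℚ) (m : Fin N) :
    dact (Pool.Agent.W516.DR.cmpE lam (XX A.basis D)) (u m) =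
      ∑ j, lam ((P.map D * P') j m) • u j := by
  classical
  obtain ⟨a, ha⟩ := h
  refine MultilinearMap.ext fun v => ?_
  let S : Fin N → ℂ := fun j => ∑ l, bcm (Ω := ℂ) (Module.finBasis ℚ A.H1) (u j)
    (update (fun l => (1 : ℂ) ⊗ₜ[ℚ] v l) l (XX A.basis D ((1 : ℂ) ⊗ₜ[ℚ] v l)))
  have hS : ∀ i, ∑ j, P j i * S j = ∑ j, D (P j i) * ((u j v : ℚ) : ℂ) := by
    intro i
    have e1 : ∑ j, P j i * S j = ∑ l, ∑ J, algebraMap QBar ℂ (a i J) *
        ∏ l', etaL A.basis (J l') (update (fun l => (1 : ℂ) ⊗ₜ[ℚ] v l) l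
          (XX A.basis D ((1 : ℂ) ⊗ₜ[ℚ] v l)) l') := by
      simp only [S, Finset.mul_sum]
      rw [Finset.sum_comm]
      exact Finset.sum_congr rfl fun l _ => by rw [← per_ext ha]
    have e2 : ∀ (J : κ → Fin g ⊕ Fin g) (l : κ),
        ∏ l', etaL A.basis (J l') (update (fun l => (1 : ℂ) ⊗ₜ[ℚ] v l) l
          (XX A.basis D ((1 : ℂ) ⊗ₜ[ℚ] v l)) l') =
        D (A.dR (J l) (v l)) * ∏ l' ∈ Finset.univ.erase l, A.dR (J l') (v l') := by
      intro J l
      rw [← Finset.mul_prod_erase _ _ (Finset.mem_univ l), update_self, etaL_XX_one, A.coe_basis]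
      congr 1
      refine Finset.prod_congr rfl fun l' hl' => ?_
      rw [update_of_ne (Finset.ne_of_mem_erase hl'), etaL_tmul, one_mul, A.coe_basis]
    have e3 : D (∑ j, P j i * ((u j v : ℚ) : ℂ)) = ∑ j, D (P j i) * ((u j v : ℚ) : ℂ) := by
      rw [map_sum]
      refine Finset.sum_congr rfl fun j _ => ?_
      have h0 : D ((u j v : ℚ) : ℂ) = 0 := der_k (k := ℚ) D (u j v)
      rw [Derivation.leibniz, h0, smul_zero, zero_add, smul_eq_mul, mul_comm]
    rw [e1, ← e3, ha i v, map_sum, Finset.sum_comm]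
    refine Finset.sum_congr rfl fun J _ => ?_
    rw [Derivation.leibniz, Derivation.map_algebraMap, smul_zero, add_zero, smul_eq_mul, der_prod,
      Finset.mul_sum]
    exact Finset.sum_congr rfl fun l _ => by rw [e2]
  have hSm : S m = ∑ j, (P.map D * P') j m * ((u j v : ℚ) : ℂ) := by
    have e1 : ∑ i, P' i m * ∑ j, P j i * S j = S m := by
      simp only [Finset.mul_sum]
      rw [Finset.sum_comm]
      have e2 : ∀ j, ∑ i, P' i m * (P j i * S j) = (1 : Matrix (Fin N) (Fin N) ℂ) j m * S j := by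
        intro j
        rw [← h1, Matrix.mul_apply, Finset.sum_mul]
        exact Finset.sum_congr rfl fun i _ => by ring
      rw [Finset.sum_congr rfl fun j _ => e2 j, Finset.sum_eq_single m]
      · rw [Matrix.one_apply_eq, one_mul]
      · intro j _ hj
        rw [Matrix.one_apply_ne hj, zero_mul]
      · intro h
        exact absurd (Finset.mem_univ _) h
    rw [← e1]
    simp only [hS, Finset.mul_sum]
    rw [Finset.sum_comm]
    refine Finset.sum_congr rfl fun j _ => ?_
    rw [Matrix.mul_apply, Finset.sum_mul]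
    refine Finset.sum_congr rfl fun i _ => ?_
    rw [Matrix.map_apply]
    ring
  have h2 := congrArg lam hSm
  have h3 : lam (S m) = dact (Pool.Agent.W516.DR.cmpE lam (XX A.basis D)) (u m) v := by
    rw [dact_apply, map_sum]
    refine Finset.sum_congr rfl fun l _ => ?_
    rw [cmp_bcm]
    rfl
  rw [← h3, h2, map_sum, _root_.sum_apply]
  refine Finset.sum_congr rfl fun j _ => ?_
  have h4 : (P.map D * P') j m * ((u j v : ℚ) : ℂ) = (u j v) • (P.map D * P') j m := by
    rw [mul_comm, Rat.smul_def]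
  rw [h4, map_smul, _root_.smul_apply, smul_eq_mul, smul_eq_mul, mul_comm]

theorem X0_eq' (D : Derivation QBar ℂ ℂ) (lam : ℂ →ₗ[ℚ] ℚ) :
    X0 A.basis tau D lam = Pool.Agent.W516.DR.cmpE lam (XX A.basis D) -
      lam (D tau / (2 * tau)) • (1 : Module.End ℚ A.H1) := by
  refine LinearMap.ext fun w => ?_
  rw [X0_apply, LinearMap.sub_apply, LinearMap.smul_apply, Module.End.one_apply,
    Pool.Agent.W516.DR.cmpE_apply]

theorem dact_X0 (h : IsPer A u P) (h1 : P * P' = 1) (D : Derivation QBar ℂ ℂ)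
    (lam : ℂ →ₗ[ℚ] ℚ) (m : Fin N) :
    dact (X0 A.basis tau D lam) (u m) =
      ∑ j, lam ((P.map D * P') j m) • u j -
        (lam (D tau / (2 * tau)) * (Fintype.card κ : ℚ)) • u m := by
  rw [X0_eq', dact_sub, dact_XX h h1, dact_smul, dact_one, smul_smul]

end Pool.Agent.R917
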