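import Pool.Agent.R917.MTU
import Pool.Agent.R917.TPer
import Pool.Agent.R917.MT

set_option autoImplicit false
set_option linter.unusedSectionVars false

/-!
# Motives whose periods lie in a commutative torsor are of type CM
-/

open Module Function TensorProduct Matrix

noncomputable section

namespace Pool.Agent.R917

open Pool.Agent.Y102 Pool.Agent.W516.DR Pool.Agent.H204R3.GP Pool.Agent.W516.KC
  Pool.Agent.H204R3.SP Pool.Agent.TH119.MX

/-- Elements whose exponentials commute commute. -/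
theorem comm_of_exp {𝔸 : Type} [NormedRing 𝔸] [NormedAlgebra ℂ 𝔸] [CompleteSpace 𝔸] {X Y : 𝔸}
    (h : ∀ s t : ℂ, NormedSpace.exp (s • X) * NormedSpace.exp (t • Y) =
      NormedSpace.exp (t • Y) * NormedSpace.exp (s • X)) : X * Y = Y * X := by
  have h1 : ∀ t : ℂ, X * NormedSpace.exp (t • Y) = NormedSpace.exp (t • Y) * X := by
    intro t
    have e1 := (hasDerivAt_exp_smul_const (𝕂 := ℂ) X 0).mul_const (NormedSpace.exp (t • Y))
    have e2 := (hasDerivAt_exp_smul_const (𝕂 := ℂ) X 0).const_mul (NormedSpace.exp (t • Y))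
    rw [zero_smul, NormedSpace.exp_zero, one_mul] at e1 e2
    have e3 : (fun u : ℂ => NormedSpace.exp (u • X) * NormedSpace.exp (t • Y)) =
        fun u : ℂ => NormedSpace.exp (t • Y) * NormedSpace.exp (u • X) := by
      funext u
      exact h u t
    rw [e3] at e1
    exact e1.unique e2
  have e1 := (hasDerivAt_exp_smul_const (𝕂 := ℂ) Y 0).const_mul X
  have e2 := (hasDerivAt_exp_smul_const (𝕂 := ℂ) Y 0).mul_const X
  rw [zero_smul, NormedSpace.exp_zero, one_mul] at e1 e2
  have e3 : (fun u : ℂ => X * NormedSpace.exp (u • Y)) =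
      fun u : ℂ => NormedSpace.exp (u • Y) * X := by
    funext u
    exact h1 u
  rw [e3] at e1
  exact e1.unique e2

section norms

attribute [local instance] Matrix.linftyOpNormedRing Matrix.linftyOpNormedAlgebra

/-- The Lie algebra of a commutative group is commutative. -/
theorem lie_comm {n : ℕ} {H : Set (Matrix (Fin n) (Fin n) ℂ)} (hH : AlgGrp QQ H)
    (hc : ∀ x ∈ H, ∀ y ∈ H, x * y = y * x) {X Y : Matrix (Fin n) (Fin n) ℂ}
    (hX : ∀ d, Stab H d X) (hY : ∀ d, Stab H d Y) : X * Y = Y * X :=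
  comm_of_exp fun s t => hc _ (exp_mem hH fun d => (hX d).smul s) _
    (exp_mem hH fun d => (hY d).smul t)

end norms

variable {g : ℕ} {A : AbVar g} {κ : Type} [Fintype κ] [DecidableEq κ] {N : ℕ}
  {u : Fin N → MultilinearMap ℚ (fun _ : κ => A.H1) ℚ}

/-- `R` is the matrix of the action of `X` on the span of `u`. -/
def IsMat (u : Fin N → MultilinearMap ℚ (fun _ : κ => A.H1) ℚ) (X : Module.End ℚ A.H1)
    (R : Matrix (Fin N) (Fin N) ℚ) : Prop := ∀ i, dact X (u i) = ∑ j, R j i • u j

theorem IsMat.mem {X : Module.End ℚ A.H1} {R : Matrix (Fin N) (Fin N) ℚ} (h : IsMat u X R)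
    {φ : MultilinearMap ℚ (fun _ : κ => A.H1) ℚ} (hφ : φ ∈ Submodule.span ℚ (Set.range u)) :
    dact X φ ∈ Submodule.span ℚ (Set.range u) := by
  induction hφ using Submodule.span_induction with
  | mem φ hφ =>
    obtain ⟨i, rfl⟩ := hφ
    rw [h i]
    exact Submodule.sum_mem _ fun j _ => Submodule.smul_mem _ _ (Submodule.subset_span ⟨j, rfl⟩)
  | zero => rw [dact_zero']; exact Submodule.zero_mem _
  | add a b _ _ ha hb => rw [dact_add']; exact Submodule.add_mem _ ha hb
  | smul c a _ ha => rw [dact_smul']; exact Submodule.smul_mem _ _ ha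

theorem IsMat.add {X Y : Module.End ℚ A.H1} {R S : Matrix (Fin N) (Fin N) ℚ} (h : IsMat u X R)
    (h' : IsMat u Y S) : IsMat u (X + Y) (R + S) := fun i => by
  rw [dact_add, h i, h' i, ← Finset.sum_add_distrib]
  exact Finset.sum_congr rfl fun j _ => by rw [Matrix.add_apply, add_smul]

theorem IsMat.smul {X : Module.End ℚ A.H1} {R : Matrix (Fin N) (Fin N) ℚ} (c : ℚ)
    (h : IsMat u X R) : IsMat u (c • X) (c • R) := fun i => by
  rw [dact_smul, h i, Finset.smul_sum]
  exact Finset.sum_congr rfl fun j _ => by rw [Matrix.smul_apply, smul_smul, smul_eq_mul]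

theorem isMat_zero : IsMat u (0 : Module.End ℚ A.H1) 0 := fun i => by
  rw [dact_zero]
  exact (Finset.sum_eq_zero fun j _ => by rw [Matrix.zero_apply, zero_smul]).symm

theorem IsMat.dact_dact {X Y : Module.End ℚ A.H1} {R S : Matrix (Fin N) (Fin N) ℚ}
    (h : IsMat u X R) (h' : IsMat u Y S) (i : Fin N) :
    dact X (dact Y (u i)) = ∑ j, (R * S) j i • u j := by
  rw [h' i, dact_sum]
  simp only [h _, Finset.smul_sum, smul_smul]
  rw [Finset.sum_comm]
  refine Finset.sum_congr rfl fun j _ => ?_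
  rw [Matrix.mul_apply, Finset.sum_smul]
  exact Finset.sum_congr rfl fun m _ => by rw [mul_comm (S m i) (R j m)]

theorem IsMat.br {X Y : Module.End ℚ A.H1} {R S : Matrix (Fin N) (Fin N) ℚ}
    (h : IsMat u X R) (h' : IsMat u Y S) : IsMat u (X * Y - Y * X) (S * R - R * S) := fun i => by
  rw [← dact_br, h'.dact_dact h, h.dact_dact h', ← Finset.sum_sub_distrib]
  exact Finset.sum_congr rfl fun j _ => by rw [Matrix.sub_apply, sub_smul]

theorem IsMat.unique (hu : LinearIndependent ℚ u) {X : Module.End ℚ A.H1}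
    {R S : Matrix (Fin N) (Fin N) ℚ} (h : IsMat u X R) (h' : IsMat u X S) : R = S := by
  ext j i
  have h1 : ∑ j, (R j i - S j i) • u j = 0 := by
    simp only [sub_smul, Finset.sum_sub_distrib]
    rw [← h i, ← h' i, sub_self]
  exact sub_eq_zero.1 (Fintype.linearIndependent_iff.1 hu _ h1 j)

theorem kills_span {X : Module.End ℚ A.H1} (h : ∀ i, dact X (u i) = 0)
    {φ : MultilinearMap ℚ (fun _ : κ => A.H1) ℚ} (hφ : φ ∈ Submodule.span ℚ (Set.range u)) :
    dact X φ = 0 := by
  induction hφ using Submodule.span_induction with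
  | mem φ hφ =>
    obtain ⟨i, rfl⟩ := hφ
    exact h i
  | zero => rw [dact_zero']
  | add a b _ _ ha hb => rw [dact_add', ha, hb, add_zero]
  | smul c a _ ha => rw [dact_smul', ha, smul_zero]

/-- the matrix over the complex numbers -/
def mC (R : Matrix (Fin N) (Fin N) ℚ) : Matrix (Fin N) (Fin N) ℂ := R.map (algebraMap ℚ ℂ)

theorem mC_mul (R S : Matrix (Fin N) (Fin N) ℚ) : mC (R * S) = mC R * mC S := Matrix.map_mul

theorem mC_inj {R S : Matrix (Fin N) (Fin N) ℚ} (h : mC R = mC S) : R = S := by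
  ext i j
  have h1 := congrFun (congrFun h i) j
  exact (algebraMap ℚ ℂ).injective h1

/-- The elements of the Lie algebra which act on `U` by elements of the Lie algebra of the group, up
to a scalar. -/
def lU (A : AbVar g) (u : Fin N → MultilinearMap ℚ (fun _ : κ => A.H1) ℚ)
    (H : Set (Matrix (Fin N) (Fin N) ℂ)) : Submodule ℚ (Module.End ℚ A.H1) where
  carrier := {X | X ∈ A.NA ∧ ∃ R, IsMat u X R ∧ ∃ c : ℚ, ∀ d, Stab H d (mC R + (c : ℂ) • 1)}
  zero_mem' := ⟨A.NA.zero_mem, 0, isMat_zero, 0, fun d => by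
    have h1 : mC (0 : Matrix (Fin N) (Fin N) ℚ) + ((0 : ℚ) : ℂ) • 1 = 0 := by
      unfold mC
      rw [Rat.cast_zero, zero_smul, add_zero, Matrix.map_zero _ (map_zero _)]
    rw [h1]
    exact Stab.zero⟩
  add_mem' := by
    rintro X Y ⟨hX, R, hR, c, hc⟩ ⟨hY, S, hS, c', hc'⟩
    refine ⟨A.NA.add_mem hX hY, R + S, hR.add hS, c + c', fun d => ?_⟩
    have h1 := (hc d).add (hc' d)
    have h2 : mC (R + S) + ((c + c' : ℚ) : ℂ) • (1 : Matrix (Fin N) (Fin N) ℂ) =
        mC R + (c : ℂ) • 1 + (mC S + (c' : ℂ) • 1) := by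
      unfold mC
      rw [Matrix.map_add _ (fun a b => map_add _ a b)]
      push_cast
      rw [add_smul]
      abel
    rw [h2]
    exact h1
  smul_mem' := by
    rintro a X ⟨hX, R, hR, c, hc⟩
    refine ⟨A.NA.smul_mem a hX, a • R, hR.smul a, a * c, fun d => ?_⟩
    have h1 := (hc d).smul (a : ℂ)
    have h2 : mC (a • R) + ((a * c : ℚ) : ℂ) • (1 : Matrix (Fin N) (Fin N) ℂ) =
        (a : ℂ) • (mC R + (c : ℂ) • 1) := by
      have h3 : mC (a • R) = (a : ℂ) • mC R := by
        ext i j
        unfold mC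
        rw [Matrix.map_apply, Matrix.smul_apply, Matrix.smul_apply, Matrix.map_apply, smul_eq_mul,
          map_mul]
        rfl
      rw [h3, smul_add, smul_smul]
      push_cast
      rfl
    rw [h2]
    exact h1

/-- **Main theorem.** If the comparison isomorphism of a subobject of a tensor power lies in a torsor
under a commutative group, then the whole Lie algebra acts on it through the centre. -/
theorem gU_le_of {H : Set (Matrix (Fin N) (Fin N) ℂ)} (hH : AlgGrp QQ H)
    (hc : ∀ x ∈ H, ∀ y ∈ H, x * y = y * x)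
    {P P' T T' : Matrix (Fin N) (Fin N) ℂ} (hP : IsPer A u P) (h1 : P * P' = 1) (h2 : P' * P = 1)
    {s : ℂ} (hs : s ≠ 0)
    (h3 : T * T' = 1) (h4 : ∀ i j, T' i j ∈ QA) (h5 : (s • P) * T ∈ H) :
    gU A (Submodule.span ℚ (Set.range u)) ≤
      nU A (Submodule.span ℚ (Set.range u)) ⊔ cU A (Submodule.span ℚ (Set.range u)) := by
  set U := Submodule.span ℚ (Set.range u) with hU
  have hle : lU A u H ≤ gU A U := by
    rintro X ⟨hX, R, hR, _⟩
    exact ⟨hX, fun φ hφ => hR.mem hφ⟩
  have hcom : ∀ X ∈ lU A u H, ∀ Y ∈ lU A u H, X * Y - Y * X ∈ nU A U ∧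
      X * Y - Y * X ∈ lU A u H := by
    rintro X ⟨hX, R, hR, c, hRc⟩ Y ⟨hY, S, hS, c', hSc⟩
    have e1 := lie_comm hH hc hRc hSc
    have e2 : R * S = S * R := by
      apply mC_inj
      rw [mC_mul, mC_mul]
      have e3 : (mC R + (c : ℂ) • 1) * (mC S + (c' : ℂ) • 1) - (mC S + (c' : ℂ) • 1) *
          (mC R + (c : ℂ) • 1) = mC R * mC S - mC S * mC R := by
        simp only [add_mul, mul_add, Matrix.smul_mul, Matrix.mul_smul, Matrix.one_mul,
          Matrix.mul_one]
        rw [smul_comm (c : ℂ) (c' : ℂ)]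
        abel
      rw [e1, sub_self] at e3
      exact (sub_eq_zero.1 e3.symm)
    have e3 : IsMat u (X * Y - Y * X) 0 := by
      have e4 := hR.br hS
      rwa [e2, sub_self] at e4
    have e5 : ∀ i, dact (X * Y - Y * X) (u i) = 0 := by
      intro i
      rw [e3 i]
      exact Finset.sum_eq_zero fun j _ => by rw [Matrix.zero_apply, zero_smul]
    refine ⟨⟨A.NA_bracket hX hY, fun φ hφ => kills_span e5 hφ⟩,
      A.NA_bracket hX hY, 0, e3, 0, fun d => ?_⟩
    have e6 : mC (0 : Matrix (Fin N) (Fin N) ℚ) + ((0 : ℚ) : ℂ) • 1 = 0 := by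
      unfold mC
      rw [Rat.cast_zero, zero_smul, add_zero, Matrix.map_zero _ (map_zero _)]
    rw [e6]
    exact Stab.zero
  have h0 : ∀ (D : Derivation QBar ℂ ℂ) (lam : ℂ →ₗ[ℚ] ℚ), X0 A.basis tau D lam ∈ lU A u H := by
    intro D lam
    refine ⟨A.LA_le_NA (by rw [AbVar.LA_eq]; exact X0_mem A.basis AbVar.tau_ne D lam),
      (P.map D * P').map lam - (lam (D tau / (2 * tau)) * (Fintype.card κ : ℚ)) • 1, ?_,
      lam (D tau / (2 * tau)) * (Fintype.card κ : ℚ) + lam (D s / s), fun d => ?_⟩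
    · intro i
      rw [dact_X0 hP h1 D lam i]
      simp only [Matrix.sub_apply, Matrix.smul_apply, Matrix.map_apply, sub_smul,
        Finset.sum_sub_distrib, Matrix.one_apply, smul_eq_mul, mul_ite, mul_one, mul_zero, ite_smul,
        zero_smul]
      rw [Finset.sum_ite_eq' Finset.univ i]
      simp
    · have k1 : (s • P) * (s⁻¹ • P') = 1 := by
        rw [Matrix.smul_mul, Matrix.mul_smul, h1, smul_smul, mul_inv_cancel₀ hs, one_smul]
      have k2 : (s⁻¹ • P') * (s • P) = 1 := by
        rw [Matrix.smul_mul, Matrix.mul_smul, h2, smul_smul, inv_mul_cancel₀ hs, one_smul]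
      have e1 := hH.stab_map (lamF lam) (hH.stab_der QQ_le_QA (fun x hx => mem_QA.1 hx) k1 k2 h3 h4
        h5 (derQ D) (d := d))
      have e0 : (s • P).map (derQ D) * (s⁻¹ • P') = P.map D * P' + (D s / s) • 1 := by
        have e3 : (s • P).map (derQ D) = s • P.map D + D s • P := by
          ext a b
          rw [Matrix.map_apply, Matrix.smul_apply, Matrix.add_apply, Matrix.smul_apply,
            Matrix.smul_apply, Matrix.map_apply, derQ_apply, smul_eq_mul, Derivation.leibniz]
          simp only [smul_eq_mul]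
          ring
        rw [e3, Matrix.add_mul, Matrix.smul_mul, Matrix.mul_smul, smul_smul, mul_inv_cancel₀ hs,
          one_smul, Matrix.smul_mul, Matrix.mul_smul, h1, smul_smul, div_eq_mul_inv]
      rw [e0] at e1
      have e2 : mC ((P.map D * P').map lam -
          (lam (D tau / (2 * tau)) * (Fintype.card κ : ℚ)) • (1 : Matrix (Fin N) (Fin N) ℚ)) +
          ((lam (D tau / (2 * tau)) * (Fintype.card κ : ℚ) + lam (D s / s) : ℚ) : ℂ) • 1 =
          (P.map D * P' + (D s / s) • 1).map (lamF lam) := by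
        ext i j
        unfold mC
        simp only [Matrix.add_apply, Matrix.map_apply, Matrix.sub_apply, Matrix.smul_apply,
          Matrix.one_apply, smul_eq_mul, lamF_apply, map_sub, map_mul, map_add]
        generalize lam (D tau / (2 * tau)) = q
        split_ifs
        · push_cast
          simp only [mul_one, map_mul, map_natCast]
          have e7 : (algebraMap ℚ ℂ) q = (q : ℂ) := rfl
          have e8 : (algebraMap ℚ ℂ) (lam ((P.map D * P') i j)) =
            ((lam ((P.map D * P') i j) : ℚ) : ℂ) := rfl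
          rw [e7, e8]
          ring
        · simp
      rw [e2]
      exact e1
  exact gU_le hle (fun X hX Y hY => (hcom X hX Y hY).2) h0
    (fun X hX Y hY => (hcom X hX Y hY).1)

/-- The action of the Lie algebra is commutative. -/
theorem gU_comm (hmain : gU A (Submodule.span ℚ (Set.range u)) ≤
      nU A (Submodule.span ℚ (Set.range u)) ⊔ cU A (Submodule.span ℚ (Set.range u)))
    {X Y : Module.End ℚ A.H1} (hX : X ∈ gU A (Submodule.span ℚ (Set.range u)))
    (hY : Y ∈ gU A (Submodule.span ℚ (Set.range u))) {φ : MultilinearMap ℚ (fun _ : κ => A.H1) ℚ}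
    (hφ : φ ∈ Submodule.span ℚ (Set.range u)) : dact X (dact Y φ) = dact Y (dact X φ) := by
  set U := Submodule.span ℚ (Set.range u) with hU
  obtain ⟨n, hn, z, hz, rfl⟩ := Submodule.mem_sup.1 (hmain hX)
  have h6 : (n + z) * Y - Y * (n + z) ∈ nU A U := by
    have h7 := sup_br hY (Submodule.add_mem _ (Submodule.mem_sup_left hn)
      (Submodule.mem_sup_right hz) : n + z ∈ nU A U ⊔ cU A U)
    have h8 := (nU A U).neg_mem h7
    rwa [neg_sub] at h8
  have h7 := h6.2 φ hφ
  rw [← dact_br] at h7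
  exact (sub_eq_zero.1 h7).symm

end Pool.Agent.R917
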