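import Pool.Agent.TH119.MX.Poly

set_option autoImplicit false
set_option linter.unusedSectionVars false

/-!
# The exponential map of an algebraic group of matrices
-/

open Matrix Finset

namespace Pool.Agent.R917

open Pool.Agent.TH119.MX Pool.Agent.TH119.DR Pool.Agent.W437.HK

variable {B : Type} [Fintype B] [DecidableEq B]

section norms

attribute [local instance] Matrix.linftyOpNormedRing Matrix.linftyOpNormedAlgebra

theorem hasDerivAt_entry (h X : Matrix B B ℂ) (i j : B) (t : ℂ) :
    HasDerivAt (fun s : ℂ => (h * NormedSpace.exp (s • X)) i j)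
      ((h * NormedSpace.exp (t • X) * X) i j) t := by
  have h1 := hasDerivAt_exp_smul_const (𝕂 := ℂ) X t
  have h2 := (LinearMap.toContinuousLinearMap
    ((Matrix.entryLinearMap ℂ ℂ i j).comp (LinearMap.mulLeft ℂ h))).hasFDerivAt.comp_hasDerivAt
      t h1
  have h3 : (LinearMap.toContinuousLinearMap
    ((Matrix.entryLinearMap ℂ ℂ i j).comp (LinearMap.mulLeft ℂ h)))
      (NormedSpace.exp (t • X) * X) = (h * NormedSpace.exp (t • X) * X) i j := by
    rw [Matrix.mul_assoc]
    rfl
  exact h2.congr_deriv h3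

end norms

theorem cx_LL (X y : Matrix B B ℂ) (o : Option (B × B)) :
    (LL X *ᵥ cx y) o = o.elim 0 (fun p => (y * X) p.1 p.2) := by
  rcases o with _ | ⟨i, j⟩
  · simp [mulVec, dotProduct, LL, cx]
  · simp only [mulVec, dotProduct, LL, cx, Matrix.of_apply, Option.elim_some]
    rw [Fintype.sum_option, Fintype.sum_prod_type, Matrix.mul_apply]
    simp only [Option.elim_none, Option.elim_some, zero_mul, zero_add]
    rw [Finset.sum_eq_single i]
    · simp only [if_true]
      exact Finset.sum_congr rfl fun k _ => mul_comm _ _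
    · intro b _ hb
      refine Finset.sum_eq_zero fun k _ => ?_
      rw [if_neg (Ne.symm hb), zero_mul]
    · intro h
      exact absurd (Finset.mem_univ _) h

/-- The value of a form on the curve. -/
noncomputable def FF {d : ℕ} (h X : Matrix B B ℂ) (w : (Fin d → Option (B × B)) → ℂ) (t : ℂ) :
    ℂ := evalF w (fun _ => cx (h * NormedSpace.exp (t • X)))

theorem hasDerivAt_FF {d : ℕ} (h X : Matrix B B ℂ) (w : (Fin d → Option (B × B)) → ℂ) (t : ℂ) :
    HasDerivAt (FF h X w) (FF h X (act (LL X) w) t) t := by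
  have hx : ∀ o, HasDerivAt (fun s : ℂ => cx (h * NormedSpace.exp (s • X)) o)
      ((LL X *ᵥ cx (h * NormedSpace.exp (t • X))) o) t := by
    intro o
    rw [cx_LL]
    rcases o with _ | ⟨i, j⟩
    · exact hasDerivAt_const t (1 : ℂ)
    · exact hasDerivAt_entry h X i j t
  have h1 : HasDerivAt (FF h X w) (∑ I : Fin d → Option (B × B), w I * ∑ k,
      (∏ l ∈ Finset.univ.erase k, cx (h * NormedSpace.exp (t • X)) (I l)) •
        (LL X *ᵥ cx (h * NormedSpace.exp (t • X))) (I k)) t := by
    unfold FF evalF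
    refine HasDerivAt.fun_sum fun I _ => ?_
    exact (HasDerivAt.fun_finsetProd fun k _ => hx (I k)).const_mul (w I)
  have h2 : FF h X (act (LL X) w) t = ∑ I : Fin d → Option (B × B), w I * ∑ k,
      (∏ l ∈ Finset.univ.erase k, cx (h * NormedSpace.exp (t • X)) (I l)) •
        (LL X *ᵥ cx (h * NormedSpace.exp (t • X))) (I k) := by
    unfold FF
    rw [evalF_act]
    unfold evalF
    simp only [Finset.mul_sum]
    rw [Finset.sum_comm]
    refine Finset.sum_congr rfl fun I _ => Finset.sum_congr rfl fun k _ => ?_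
    congr 1
    rw [← Finset.mul_prod_erase _ _ (Finset.mem_univ k), Function.update_self, smul_eq_mul,
      mul_comm]
    congr 1
    refine Finset.prod_congr rfl fun l hl => ?_
    rw [Function.update_of_ne (Finset.ne_of_mem_erase hl)]
  rw [h2]
  exact h1

theorem FF_zero {H : Set (Matrix B B ℂ)} {X : Matrix B B ℂ} (hS : ∀ d, Stab H d X) {d : ℕ}
    {h : Matrix B B ℂ} (hh : h ∈ H) {w : (Fin d → Option (B × B)) → ℂ} (hw : w ∈ Wt H d) (t : ℂ) :
    FF h X w t = 0 := by
  have hd : ∀ w : (Fin d → Option (B × B)) → ℂ, Differentiable ℂ (FF h X w) := fun w t =>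
    (hasDerivAt_FF h X w t).differentiableAt
  have h0 : ∀ w ∈ Wt H d, FF h X w 0 = 0 := by
    intro w hw
    unfold FF
    rw [zero_smul, NormedSpace.exp_zero, Matrix.mul_one]
    exact hw h hh
  have hit : ∀ n : ℕ, ∀ w ∈ Wt H d, ∃ w' ∈ Wt H d, iteratedDeriv n (FF h X w) = FF h X w' := by
    intro n
    induction n with
    | zero => exact fun w hw => ⟨w, hw, iteratedDeriv_zero⟩
    | succ n ih =>
      intro w hw
      obtain ⟨w', hw', h1⟩ := ih w hw
      refine ⟨act (LL X) w', hS d w' hw', ?_⟩
      rw [iteratedDeriv_succ, h1]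
      funext t
      exact (hasDerivAt_FF h X w' t).deriv
  have h1 := Complex.hasSum_taylorSeries_of_entire (hd w) 0 t
  have h2 : ∀ n : ℕ, iteratedDeriv n (FF h X w) 0 = 0 := by
    intro n
    obtain ⟨w', hw', h3⟩ := hit n w hw
    rw [h3]
    exact h0 w' hw'
  simp only [h2, smul_zero] at h1
  exact h1.unique hasSum_zero

/-- The exponentials of the elements of the Lie algebra are in the group. -/
theorem exp_mem {F : Subfield ℂ} {H : Set (Matrix B B ℂ)} (hH : AlgGrp F H) {X : Matrix B B ℂ}
    (hS : ∀ d, Stab H d X) : NormedSpace.exp X ∈ H := by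
  have h1 : Pres H (NormedSpace.exp X) := by
    intro d w hw
    rw [pull_mem_Wt]
    intro h hh
    have h2 := FF_zero hS hh hw 1
    unfold FF at h2
    rwa [one_smul] at h2
  have h2 : NormedSpace.exp X * NormedSpace.exp (-X) = 1 := by
    rw [← Matrix.exp_add_of_commute _ _ (Commute.neg_right (Commute.refl X)), add_neg_cancel,
      NormedSpace.exp_zero]
  have h3 : NormedSpace.exp (-X) * NormedSpace.exp X = 1 := by
    rw [← Matrix.exp_add_of_commute _ _ (Commute.neg_left (Commute.refl X)), neg_add_cancel,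
      NormedSpace.exp_zero]
  exact hH.mem_of_pres h1 h2 h3

end Pool.Agent.R917
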