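import Pool.Agent.Y102.V15

set_option autoImplicit false
set_option linter.unusedSectionVars false

/-!
# Subalgebras which contain the logarithmic derivatives of the periods are full
-/

open Module Function TensorProduct

noncomputable section

namespace Pool.Agent.R917

open Pool.Agent.Y102 Pool.Agent.W516.DR Pool.Agent.H204R3.GP Pool.Agent.W516.KC
  Pool.Agent.H204R3.SP

variable {g : ℕ} (A : AbVar g)

/-- A subalgebra of the Lie algebra which contains the components of the logarithmic derivatives
of the period matrix acts semisimply and has the same commutant. -/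
theorem full_of_X0 {𝔥 : Submodule ℚ (Module.End ℚ A.H1)} (hle : 𝔥 ≤ A.NA)
    (hbr : ∀ X ∈ 𝔥, ∀ Y ∈ 𝔥, X * Y - Y * X ∈ 𝔥)
    (h0 : ∀ (D : Derivation QBar ℂ ℂ) (lam : ℂ →ₗ[ℚ] ℚ), X0 A.basis tau D lam ∈ 𝔥) :
    A.Full 𝔥 where
  le := hle
  br := hbr
  semi := by
    intro U hU
    have h1 : IsDeRhamBettiSubspace QBar A.dR U := by
      rw [← A.coe_basis]
      exact sub_of_stable A.basis (τ := tau) U fun D lam u hu => hU _ (h0 D lam) u hu
    refine ⟨_, fun X hX u hu => ?_, A.isCompl_of_sub h1⟩
    intro v hv
    have h2 := A.NA_skew (hle hX) v u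
    have h3 : A.om (X v) u = 0 := hu _ (hU X hX v hv)
    rw [h3, zero_add] at h2
    exact h2
  comm := by
    intro P hP X hX
    refine A.NA_comm hX (A.mem_EA.2 ?_)
    exact A.end_of_central h0 hP

end Pool.Agent.R917
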