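import Pool.Agent.R917.ExpGrp
import Pool.Agent.R917.FullX0

set_option autoImplicit false
set_option linter.unusedSectionVars false

/-!
# The Lie algebra of an algebraic group which contains the periods of an abelian variety
-/

open Module Function TensorProduct Matrix

noncomputable section

namespace Pool.Agent.R917

open Pool.Agent.Y102 Pool.Agent.W516.DR Pool.Agent.H204R3.GP Pool.Agent.W516.KC
  Pool.Agent.H204R3.SP Pool.Agent.TH119.MX

section lieQ

variable {n : ℕ}

theorem toC_add (X Y : Module.End ℚ (Fin n → ℚ)) : toC (X + Y) = toC X + toC Y := by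
  ext i j
  simp [toC]

theorem toC_smul (c : ℚ) (X : Module.End ℚ (Fin n → ℚ)) : toC (c • X) = (c : ℂ) • toC X := by
  ext i j
  simp [toC]

theorem toC_zero : toC (0 : Module.End ℚ (Fin n → ℚ)) = 0 := by
  ext i j
  simp [toC]

theorem toC_one : toC (1 : Module.End ℚ (Fin n → ℚ)) = 1 := by
  rw [toC_eq, LinearMap.toMatrix'_one, Matrix.map_one _ (map_zero _) (map_one _)]

theorem toC_mul (X Y : Module.End ℚ (Fin n → ℚ)) : toC (X * Y) = toC X * toC Y := by
  rw [toC_eq, toC_eq, toC_eq, LinearMap.toMatrix'_mul, Matrix.map_mul]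

theorem toC_sub (X Y : Module.End ℚ (Fin n → ℚ)) : toC (X - Y) = toC X - toC Y := by
  ext i j
  simp [toC]

/-- The rational Lie algebra of a group of matrices which acts on the dual space. -/
def lieQ (H : Set (Matrix (Fin n) (Fin n) ℂ)) : Submodule ℚ (Module.End ℚ (Fin n → ℚ)) where
  carrier := {X | ∀ d, Stab H d (toC X)ᵀ}
  zero_mem' := fun d => by
    rw [toC_zero, Matrix.transpose_zero]
    exact Stab.zero
  add_mem' := fun {X Y} hX hY d => by
    rw [toC_add, Matrix.transpose_add]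
    exact (hX d).add (hY d)
  smul_mem' := fun c X hX d => by
    rw [toC_smul, Matrix.transpose_smul]
    exact (hX d).smul _

theorem lieQ_br {H : Set (Matrix (Fin n) (Fin n) ℂ)} {X Y : Module.End ℚ (Fin n → ℚ)}
    (hX : X ∈ lieQ H) (hY : Y ∈ lieQ H) : X * Y - Y * X ∈ lieQ H := by
  intro d
  have h1 := (hY d).comm (hX d)
  rw [toC_sub, toC_mul, toC_mul, Matrix.transpose_sub, Matrix.transpose_mul,
    Matrix.transpose_mul]
  exact h1

end lieQ

/-- the field of rational numbers as a subfield -/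
abbrev QQ : Subfield ℂ := (algebraMap ℚ ℂ).fieldRange

/-- the field of algebraic numbers as a subfield -/
abbrev QA : Subfield ℂ := (algebraicClosure ℚ ℂ).toSubfield

theorem QQ_le_QA : QQ ≤ QA := by
  rintro _ ⟨q, rfl⟩
  exact (algebraicClosure ℚ ℂ).algebraMap_mem q

theorem mem_QA {x : ℂ} : x ∈ QA ↔ IsAlgebraic ℚ x := mem_algebraicClosure_iff

/-- A linear form on the complex numbers as a linear map over the field of rational numbers,
considered as a subfield. -/
def lamF (lam : ℂ →ₗ[ℚ] ℚ) : ℂ →ₗ[QQ] ℂ where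
  toFun x := (lam x : ℂ)
  map_add' x y := by rw [map_add]; push_cast; rfl
  map_smul' c x := by
    obtain ⟨_, q, rfl⟩ := c
    have h1 : (⟨(algebraMap ℚ ℂ) q, ⟨q, rfl⟩⟩ : QQ) • x = q • x := by
      rw [Algebra.smul_def, Algebra.smul_def]
      rfl
    rw [RingHom.id_apply, h1, map_smul, smul_eq_mul, Rat.cast_mul, Algebra.smul_def]
    rfl

theorem lamF_apply (lam : ℂ →ₗ[ℚ] ℚ) (x : ℂ) : lamF lam x = (lam x : ℂ) := rfl

variable {g : ℕ} (A : AbVar g)

/-- The period matrix, with the rows given by the basis of the lattice. -/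
def perMat : Matrix (Fin (2 * g)) (Fin g ⊕ Fin g) ℂ :=
  Matrix.of fun j i => A.dR i (Pi.single j 1)

/-- the indices -/
def eqv (g : ℕ) : Fin g ⊕ Fin g ≃ Fin (2 * g) :=
  finSumFinEquiv.trans (finCongr (two_mul g).symm)

/-- The square period matrix. -/
def PM : Matrix (Fin (2 * g)) (Fin (2 * g)) ℂ := (perMat A).submatrix id (eqv g).symm

theorem PM_apply (j : Fin (2 * g)) (i : Fin g ⊕ Fin g) :
    PM A j (eqv g i) = A.dR i (Pi.single j 1) := by
  unfold PM perMat
  rw [Matrix.submatrix_apply, Equiv.symm_apply_apply, Matrix.of_apply]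
  rfl

theorem det_PM : (PM A).det ≠ 0 := by
  intro h0
  obtain ⟨v, hv, h1⟩ := Matrix.exists_mulVec_eq_zero_iff.2 h0
  apply hv
  have h2 : ∑ i, v (eqv g i) • A.basis i = 0 := by
    refine (Pi.basisFun ℚ (Fin (2 * g))).ext fun j => ?_
    have h3 := congrFun h1 j
    rw [Matrix.mulVec, dotProduct, Pi.zero_apply] at h3
    rw [LinearMap.sum_apply, LinearMap.zero_apply, Pi.basisFun_apply, ← h3]
    rw [← Equiv.sum_comp (eqv g)]
    refine Finset.sum_congr rfl fun i _ => ?_
    rw [LinearMap.smul_apply, A.coe_basis, PM_apply, smul_eq_mul, mul_comm]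
  have h3 := Fintype.linearIndependent_iff.1 A.basis.linearIndependent _ h2
  funext j
  have h4 := h3 ((eqv g).symm j)
  rwa [Equiv.apply_symm_apply] at h4

/-- The inverse of the square period matrix. -/
theorem exists_inv : ∃ P' : Matrix (Fin (2 * g)) (Fin (2 * g)) ℂ, PM A * P' = 1 ∧ P' * PM A = 1 := by
  have h1 : IsUnit (PM A).det := isUnit_iff_ne_zero.2 (det_PM A)
  exact ⟨(PM A)⁻¹, Matrix.mul_nonsing_inv _ h1, Matrix.nonsing_inv_mul _ h1⟩

/-- The logarithmic derivative of the period matrix, on the basis. -/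
theorem XX_single (D : Derivation QBar ℂ ℂ) {P' : Matrix (Fin (2 * g)) (Fin (2 * g)) ℂ}
    (h2 : P' * PM A = 1) (j : Fin (2 * g)) :
    XX A.basis D ((1 : ℂ) ⊗ₜ[ℚ] (Pi.single j 1 : A.H1)) =
      ∑ i, ((PM A).map D * P') j i ⊗ₜ[ℚ] (Pi.single i 1 : A.H1) := by
  refine ext_etaL A.basis fun k => ?_
  rw [etaL_XX_one, map_sum]
  have h3 : ∀ i, etaL A.basis k (((PM A).map D * P') j i ⊗ₜ[ℚ] (Pi.single i 1 : A.H1)) =
      ((PM A).map D * P') j i * PM A i (eqv g k) := by
    intro i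
    rw [etaL_tmul, A.coe_basis, PM_apply]
  rw [Finset.sum_congr rfl fun i _ => h3 i]
  have h4 : ∑ i, ((PM A).map D * P') j i * PM A i (eqv g k) =
      ((PM A).map D * P' * PM A) j (eqv g k) := (Matrix.mul_apply).symm
  rw [h4, Matrix.mul_assoc, h2, Matrix.mul_one, Matrix.map_apply, PM_apply, A.coe_basis]

theorem toC_cmpE (D : Derivation QBar ℂ ℂ) {P' : Matrix (Fin (2 * g)) (Fin (2 * g)) ℂ}
    (h2 : P' * PM A = 1) (lam : ℂ →ₗ[ℚ] ℚ) :
    (toC (Pool.Agent.W516.DR.cmpE lam (XX A.basis D)))ᵀ =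
      ((PM A).map D * P').map (lamF lam) := by
  ext j i
  rw [Matrix.transpose_apply, Matrix.map_apply, lamF_apply]
  unfold toC
  rw [Matrix.of_apply, Pool.Agent.W516.DR.cmpE_apply, XX_single A D h2, map_sum,
    Finset.sum_apply]
  congr 1
  rw [Finset.sum_eq_single i]
  · rw [cmp_tmul, Pi.smul_apply, Pi.single_eq_same, smul_eq_mul, mul_one]
  · intro b _ hb
    rw [cmp_tmul, Pi.smul_apply, Pi.single_eq_of_ne hb.symm, smul_zero]
  · intro h
    exact absurd (Finset.mem_univ _) h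

/-- the derivation over the rational numbers -/
def derQ (D : Derivation QBar ℂ ℂ) : Derivation ℚ ℂ ℂ := D.restrictScalars ℚ

theorem derQ_apply (D : Derivation QBar ℂ ℂ) (x : ℂ) : derQ D x = D x := rfl

/-- The group contains a point of the torsor of periods. -/
structure Pt (H : Set (Matrix (Fin (2 * g)) (Fin (2 * g)) ℂ)) : Prop where
  grp : AlgGrp QQ H
  pt : ∃ T T' : Matrix (Fin (2 * g)) (Fin (2 * g)) ℂ, T * T' = 1 ∧ (∀ i j, T' i j ∈ QA) ∧
    PM A * T ∈ H

variable {A} {H : Set (Matrix (Fin (2 * g)) (Fin (2 * g)) ℂ)}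

/-- The components of the logarithmic derivatives are in the Lie algebra. -/
theorem Pt.cmp_mem (h : Pt A H) (D : Derivation QBar ℂ ℂ) (lam : ℂ →ₗ[ℚ] ℚ) :
    Pool.Agent.W516.DR.cmpE lam (XX A.basis D) ∈ lieQ H := by
  obtain ⟨P', h1, h2⟩ := exists_inv A
  obtain ⟨T, T', h3, h4, h5⟩ := h.pt
  intro d
  rw [toC_cmpE A D h2 lam]
  refine h.grp.stab_map (lamF lam) ?_
  exact h.grp.stab_der QQ_le_QA (fun x hx => mem_QA.1 hx) h1 h2 h3 h4 h5 (derQ D)

/-- The elements of the Lie algebra of the Hodge classes which are in the Lie algebra of the group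
up to a scalar. -/
def qq (A : AbVar g) (H : Set (Matrix (Fin (2 * g)) (Fin (2 * g)) ℂ)) :
    Submodule ℚ (Module.End ℚ A.H1) where
  carrier := {X | X ∈ A.NA ∧ ∃ c : ℚ, X + c • (1 : Module.End ℚ A.H1) ∈ lieQ H}
  zero_mem' := ⟨A.NA.zero_mem, 0, by rw [zero_smul, add_zero]; exact (lieQ H).zero_mem⟩
  add_mem' := by
    rintro X Y ⟨hX, c, hc⟩ ⟨hY, d, hd⟩
    refine ⟨A.NA.add_mem hX hY, c + d, ?_⟩
    have h1 := (lieQ H).add_mem hc hd
    rw [add_smul]
    convert h1 using 1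
    abel
  smul_mem' := by
    rintro a X ⟨hX, c, hc⟩
    refine ⟨A.NA.smul_mem a hX, a * c, ?_⟩
    have h1 := (lieQ H).smul_mem a hc
    rwa [smul_add, smul_smul] at h1

theorem br_scalar (X Y : Module.End ℚ A.H1) (c d : ℚ) :
    (X + c • (1 : Module.End ℚ A.H1)) * (Y + d • (1 : Module.End ℚ A.H1)) -
      (Y + d • (1 : Module.End ℚ A.H1)) * (X + c • (1 : Module.End ℚ A.H1)) = X * Y - Y * X := by
  rw [add_mul, mul_add, mul_add, add_mul, mul_add, mul_add]
  simp only [smul_mul_assoc, mul_smul_comm, mul_one, one_mul]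
  rw [smul_comm c d]
  abel

theorem qq_br {X Y : Module.End ℚ A.H1} (hX : X ∈ qq A H) (hY : Y ∈ qq A H) :
    X * Y - Y * X ∈ lieQ H := by
  obtain ⟨_, c, hc⟩ := hX
  obtain ⟨_, d, hd⟩ := hY
  rw [← br_scalar X Y c d]
  exact lieQ_br hc hd

theorem X0_eq (D : Derivation QBar ℂ ℂ) (lam : ℂ →ₗ[ℚ] ℚ) :
    X0 A.basis tau D lam + lam (D tau / (2 * tau)) • (1 : Module.End ℚ A.H1) =
      Pool.Agent.W516.DR.cmpE lam (XX A.basis D) := by
  refine LinearMap.ext fun w => ?_
  rw [LinearMap.add_apply, X0_apply, LinearMap.smul_apply, Module.End.one_apply, sub_add_cancel,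
    Pool.Agent.W516.DR.cmpE_apply]

theorem Pt.full (h : Pt A H) : A.Full (qq A H) := by
  refine full_of_X0 A (fun X hX => hX.1) (fun X hX Y hY => ?_) fun D lam => ?_
  · refine ⟨A.NA_bracket hX.1 hY.1, 0, ?_⟩
    rw [zero_smul, add_zero]
    exact qq_br hX hY
  · refine ⟨A.LA_le_NA ?_, lam (D tau / (2 * tau)), ?_⟩
    · rw [AbVar.LA_eq]
      exact X0_mem A.basis AbVar.tau_ne D lam
    · rw [X0_eq D lam]
      exact h.cmp_mem D lam

/-- `2 π i` is not killed by all derivations. -/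
theorem exists_der : ∃ (D : Derivation QBar ℂ ℂ) (lam : ℂ →ₗ[ℚ] ℚ), lam (D tau / (2 * tau)) ≠ 0 := by
  by_contra hcon
  push Not at hcon
  have hconst : ∀ D : Derivation QBar ℂ ℂ, D tau = 0 := by
    intro D
    by_contra hne
    have hne2 : D tau / (2 * tau) ≠ 0 := div_ne_zero hne (mul_ne_zero two_ne_zero AbVar.tau_ne)
    apply hne2
    exact eq_zero_of_dual fun lam => hcon D lam
  obtain ⟨x, hx⟩ := mem_of_derivation hconst
  have halg : IsAlgebraic ℚ (tau : ℂ) := by
    rw [← hx]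
    exact QBar.alg x
  have h2I : IsAlgebraic ℚ ((2 * Complex.I)⁻¹ : ℂ) := by
    refine IsAlgebraic.inv ?_
    refine IsAlgebraic.mul ?_ ?_
    · exact_mod_cast (isAlgebraic_natCast (R := ℚ) (A := ℂ) 2)
    · exact Pool.Agent.H340R2.LW.isAlgebraic_I
  have h3 := halg.mul h2I
  have h4 : (tau : ℂ) * (2 * Complex.I)⁻¹ = Real.pi := by
    have hI := Complex.I_ne_zero
    unfold tau
    field_simp
  rw [h4] at h3
  exact Pool.Agent.H340R2.LW.transcendental_pi_complex h3

/-- If the Lie algebra is perfect, and equal to all its full subalgebras, then it is contained in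
the Lie algebra of the group, together with the scalars. -/
theorem Pt.lie (h : Pt A H) (hfull : A.Full (qq A H) → A.NA ≤ qq A H)
    (hperf : A.NA ≤ Submodule.span ℚ {Z | ∃ X ∈ A.NA, ∃ Y ∈ A.NA, Z = X * Y - Y * X}) :
    A.NA ≤ lieQ H ∧ (1 : Module.End ℚ A.H1) ∈ lieQ H := by
  have h1 := hfull h.full
  have h2 : A.NA ≤ lieQ H := by
    refine hperf.trans (Submodule.span_le.2 ?_)
    rintro _ ⟨X, hX, Y, hY, rfl⟩
    exact qq_br (h1 hX) (h1 hY)
  refine ⟨h2, ?_⟩
  obtain ⟨D, lam, hne⟩ := exists_der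
  have h3 : X0 A.basis tau D lam ∈ lieQ H := h2 (A.LA_le_NA (by
    rw [AbVar.LA_eq]
    exact X0_mem A.basis AbVar.tau_ne D lam))
  have h4 := (lieQ H).sub_mem (h.cmp_mem D lam) h3
  rw [← X0_eq D lam, add_sub_cancel_left] at h4
  have h5 := (lieQ H).smul_mem (lam (D tau / (2 * tau)))⁻¹ h4
  rwa [smul_smul, inv_mul_cancel₀ hne, one_smul] at h5

end Pool.Agent.R917
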