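import Pool.Agent.R917.Struct

set_option autoImplicit false
set_option linter.unusedSectionVars false

/-!
# Hodge substructures of tensor powers
-/

open Module Function TensorProduct

noncomputable section

namespace Pool.Agent.R917

open Pool.Agent.Y102 Pool.Agent.W516.DR Pool.Agent.H204R3.GP Pool.Agent.W516.KC
  Pool.Agent.H204R3.SP

variable {g : ℕ} (A : AbVar g) {κ : Type} [Fintype κ] [DecidableEq κ] {N : ℕ}

/-- `M` is the matrix of the action of the complex number `z` on the span of the forms `u`. -/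
def IsHM (u : Fin N → MultilinearMap ℚ (fun _ : κ => A.H1) ℚ) (z : ℂ)
    (M : Matrix (Fin N) (Fin N) ℝ) : Prop :=
  ∀ i (v : κ → (Fin g → ℂ)), A.Phi (u i) (fun l => z • v l) = ∑ j, M j i * A.Phi (u j) v

variable {A} {u : Fin N → MultilinearMap ℚ (fun _ : κ => A.H1) ℚ}

/-- Dual functionals. -/
theorem exists_dual (hu : LinearIndependent ℚ u) : ∃ L : Fin N → (κ → Fin (2 * g)) → ℚ,
    ∀ m j, ∑ J, L m J * u j (fun p => A.bas (J p)) = if m = j then 1 else 0 := by
  classical
  let T : (Fin N → ℚ) →ₗ[ℚ] ((κ → Fin (2 * g)) → ℚ) :=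
    { toFun := fun c J => ∑ j, c j * u j (fun p => A.bas (J p))
      map_add' := fun c c' => by
        funext J
        simp only [Pi.add_apply, add_mul, Finset.sum_add_distrib]
      map_smul' := fun a c => by
        funext J
        simp only [Pi.smul_apply, smul_eq_mul, RingHom.id_apply, Finset.mul_sum, mul_assoc] }
  have hT : Function.Injective T := by
    rw [injective_iff_map_eq_zero]
    intro c hc
    have h1 : ∑ j, c j • u j = 0 := by
      refine Basis.ext_multilinear (fun _ => A.bas) fun J => ?_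
      have h2 := congrFun hc J
      rw [_root_.sum_apply]
      exact h2
    funext j
    exact Fintype.linearIndependent_iff.1 hu c h1 j
  obtain ⟨S, hS⟩ := LinearMap.exists_leftInverse_of_injective T (LinearMap.ker_eq_bot.2 hT)
  refine ⟨fun m J => S (Pi.single J 1) m, fun m j => ?_⟩
  have h1 := congrArg (fun F : (Fin N → ℚ) →ₗ[ℚ] (Fin N → ℚ) => F (Pi.single j 1) m) hS
  simp only [LinearMap.comp_apply, LinearMap.id_apply] at h1
  have h2 : T (Pi.single j 1) = ∑ J, (u j (fun p => A.bas (J p))) • (Pi.single J (1 : ℚ) :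
      (κ → Fin (2 * g)) → ℚ) := by
    funext J'
    rw [Finset.sum_apply, Finset.sum_eq_single J']
    · change ∑ j', (Pi.single j 1 : Fin N → ℚ) j' * u j' (fun p => A.bas (J' p)) = _
      rw [Finset.sum_eq_single j]
      · rw [Pi.single_eq_same, one_mul, Pi.smul_apply, Pi.single_eq_same, smul_eq_mul, mul_one]
      · intro b _ hb
        rw [Pi.single_eq_of_ne hb, zero_mul]
      · intro h
        exact absurd (Finset.mem_univ _) h
    · intro b _ hb
      rw [Pi.smul_apply, Pi.single_eq_of_ne hb.symm, smul_zero]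
    · intro h
      exact absurd (Finset.mem_univ _) h
  rw [h2, map_sum, Finset.sum_apply] at h1
  simp only [map_smul, Pi.smul_apply, smul_eq_mul] at h1
  rw [Finset.sum_congr rfl fun J _ => mul_comm _ _, h1, Pi.single_apply]

theorem Phi_lam (φ : MultilinearMap ℚ (fun _ : κ => A.H1) ℚ) (J : κ → Fin (2 * g)) :
    A.Phi φ (fun p => A.lam (J p)) = ((φ fun p => A.bas (J p) : ℚ) : ℝ) := by
  have h1 : (fun p => A.lam (J p)) = fun p => A.per (A.bas (J p)) := by
    funext p
    rw [AbVar.per_bas]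
  rw [h1, AbVar.Phi_per]

/-- The matrix in terms of the dual functionals. -/
theorem IsHM.eq {L : Fin N → (κ → Fin (2 * g)) → ℚ}
    (hL : ∀ m j, ∑ J, L m J * u j (fun p => A.bas (J p)) = if m = j then 1 else 0) {z : ℂ}
    {M : Matrix (Fin N) (Fin N) ℝ} (hM : IsHM A u z M) (m i : Fin N) :
    M m i = ∑ J, (L m J : ℝ) * A.Phi (u i) (fun l => z • A.lam (J l)) := by
  have h1 : ∀ J : κ → Fin (2 * g), (L m J : ℝ) * A.Phi (u i) (fun l => z • A.lam (J l)) =
      ∑ j, M j i * ((L m J * u j (fun p => A.bas (J p)) : ℚ) : ℝ) := by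
    intro J
    rw [hM i (fun l => A.lam (J l)), Finset.mul_sum]
    refine Finset.sum_congr rfl fun j _ => ?_
    rw [Phi_lam]
    push_cast
    ring
  rw [Finset.sum_congr rfl fun J _ => h1 J, Finset.sum_comm]
  have h2 : ∀ j, ∑ J : κ → Fin (2 * g), M j i * ((L m J * u j (fun p => A.bas (J p)) : ℚ) : ℝ) =
      M j i * (if m = j then 1 else 0) := by
    intro j
    rw [← Finset.mul_sum, ← Rat.cast_sum, hL]
    split_ifs <;> simp
  rw [Finset.sum_congr rfl fun j _ => h2 j, Finset.sum_eq_single m]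
  · rw [if_pos rfl, mul_one]
  · intro b _ hb
    rw [if_neg hb.symm, mul_zero]
  · intro h
    exact absurd (Finset.mem_univ _) h

/-- The derivative of a Hodge structure. -/
theorem exists_JU (hu : LinearIndependent ℚ u)
    (hH : ∀ θ : ℝ, ∃ M, IsHM A u (Complex.exp (θ * Complex.I)) M) :
    ∃ R : Matrix (Fin N) (Fin N) ℝ,
      (∀ i (v : κ → (Fin g → ℂ)), ∑ l, A.Phi (u i) (update v l (Complex.I • v l)) =
        ∑ j, R j i * A.Phi (u j) v) ∧
      ∀ M : ℝ → Matrix (Fin N) (Fin N) ℝ, (∀ θ : ℝ, IsHM A u (Complex.exp (θ * Complex.I)) (M θ)) →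
        ∀ i j, HasDerivAt (fun θ => M θ j i) (R j i) 0 := by
  obtain ⟨L, hL⟩ := exists_dual hu
  choose M0 hM0 using hH
  have hder : ∀ M : ℝ → Matrix (Fin N) (Fin N) ℝ,
      (∀ θ : ℝ, IsHM A u (Complex.exp (θ * Complex.I)) (M θ)) → ∀ i j,
        HasDerivAt (fun θ => M θ j i) (∑ J, (L j J : ℝ) * ∑ l, A.Phi (u i)
          (update (fun l => A.lam (J l)) l (Complex.I • A.lam (J l)))) 0 := by
    intro M hM i j
    have h1 : (fun θ => M θ j i) = fun θ : ℝ => ∑ J : κ → Fin (2 * g), (L j J : ℝ) *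
        A.Phi (u i) (fun l => Complex.exp (θ * Complex.I) • A.lam (J l)) := by
      funext θ
      exact (hM θ).eq hL j i
    rw [h1]
    exact HasDerivAt.fun_sum fun J _ => (hasDeriv_exp (A.Phi (u i)) (fun l => A.lam (J l))).const_mul _
  refine ⟨Matrix.of fun j i => ∑ J, (L j J : ℝ) * ∑ l, A.Phi (u i)
    (update (fun l => A.lam (J l)) l (Complex.I • A.lam (J l))), fun i v => ?_, hder⟩
  have h1 := hasDeriv_exp (A.Phi (u i)) v
  have h2 : (fun θ : ℝ => A.Phi (u i) (fun l => Complex.exp (θ * Complex.I) • v l)) =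
      fun θ => ∑ j, M0 θ j i * A.Phi (u j) v := by
    funext θ
    exact hM0 θ i v
  rw [h2] at h1
  exact h1.unique (HasDerivAt.fun_sum fun j _ => (hder M0 hM0 i j).mul_const _)

/-- The components of the complex structure preserve a Hodge substructure. -/
theorem dact_JJ {R : Matrix (Fin N) (Fin N) ℝ}
    (hR : ∀ i (v : κ → (Fin g → ℂ)), ∑ l, A.Phi (u i) (update v l (Complex.I • v l)) =
        ∑ j, R j i * A.Phi (u j) v) (f : ℝ →ₗ[ℚ] ℚ) (i : Fin N) :
    dact (A.cmpE f AbVar.JJ) (u i) = ∑ j, f (R j i) • u j := by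
  refine MultilinearMap.ext fun v => ?_
  have h1 := congrArg f (hR i (fun l => A.per (v l)))
  rw [map_sum, map_sum] at h1
  rw [dact_apply, _root_.sum_apply]
  have h2 : ∀ l, f (A.Phi (u i) (update (fun l => A.per (v l)) l (Complex.I • A.per (v l)))) =
      u i (update v l (A.cmpE f AbVar.JJ (v l))) := fun l => by
    rw [AbVar.Phi_cmp]
    rfl
  rw [← Finset.sum_congr rfl fun l _ => h2 l, h1]
  refine Finset.sum_congr rfl fun j _ => ?_
  rw [AbVar.Phi_per, _root_.smul_apply, smul_eq_mul, mul_comm (R j i)]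
  have h3 : ((u j v : ℚ) : ℝ) * R j i = (u j v) • R j i := by rw [Rat.smul_def]
  rw [h3, map_smul, smul_eq_mul, mul_comm]

end Pool.Agent.R917
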