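import Pool.Agent.R917.CommU

set_option autoImplicit false
set_option linter.unusedSectionVars false

/-!
# The Mumford-Tate group of a motive whose periods lie in a commutative torsor
-/

open Module Function TensorProduct Matrix

noncomputable section

namespace Pool.Agent.R917

open Pool.Agent.Y102 Pool.Agent.W516.DR Pool.Agent.H204R3.GP Pool.Agent.W516.KC
  Pool.Agent.H204R3.SP Pool.Agent.TH119.MX

variable {g : ℕ} {A : AbVar g} {κ : Type} [Fintype κ] [DecidableEq κ] {N : ℕ}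
  {u : Fin N → MultilinearMap ℚ (fun _ : κ => A.H1) ℚ}

/-- The double commutant of a set of rational matrices. -/
def dcom (S : Set (Matrix (Fin N) (Fin N) ℚ)) : Subgroup (GL (Fin N) ℂ) where
  carrier := {x | ∀ C : Matrix (Fin N) (Fin N) ℚ, (∀ B ∈ S, B * C = C * B) →
    (x : Matrix (Fin N) (Fin N) ℂ) * mC C = mC C * x}
  one_mem' := fun C _ => by rw [Units.val_one, Matrix.one_mul, Matrix.mul_one]
  mul_mem' := fun {x y} hx hy C hC => by
    rw [Units.val_mul, Matrix.mul_assoc, hy C hC, ← Matrix.mul_assoc, hx C hC, Matrix.mul_assoc]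
  inv_mem' := fun {x} hx C hC => by
    have h1 := hx C hC
    calc ((x⁻¹ : GL (Fin N) ℂ) : Matrix (Fin N) (Fin N) ℂ) * mC C =
        (x⁻¹ : GL (Fin N) ℂ).val * (mC C * x.val) * (x⁻¹ : GL (Fin N) ℂ).val := by
          rw [Matrix.mul_assoc, Matrix.mul_assoc, x.mul_inv, Matrix.mul_one]
      _ = (x⁻¹ : GL (Fin N) ℂ).val * x.val * (mC C * (x⁻¹ : GL (Fin N) ℂ).val) := by
          rw [← h1]
          simp only [Matrix.mul_assoc]
      _ = _ := by rw [x.inv_mul, Matrix.one_mul]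

theorem dcom_alg (S : Set (Matrix (Fin N) (Fin N) ℚ)) :
    ∃ I : Set (MvPolynomial (Fin N × Fin N) ℚ), ∀ x : GL (Fin N) ℂ, x ∈ dcom S ↔
      ∀ p ∈ I, MvPolynomial.aeval
        (fun b : Fin N × Fin N => (x : Matrix (Fin N) (Fin N) ℂ) b.1 b.2) p = 0 := by
  let q : Matrix (Fin N) (Fin N) ℚ → Fin N → Fin N → MvPolynomial (Fin N × Fin N) ℚ :=
    fun C i j => ∑ m, MvPolynomial.X (i, m) * MvPolynomial.C (C m j) -
      ∑ m, MvPolynomial.C (C i m) * MvPolynomial.X (m, j)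
  have hq : ∀ (C : Matrix (Fin N) (Fin N) ℚ) i j (x : GL (Fin N) ℂ), MvPolynomial.aeval
      (fun b : Fin N × Fin N => (x : Matrix (Fin N) (Fin N) ℂ) b.1 b.2) (q C i j) =
        ((x : Matrix (Fin N) (Fin N) ℂ) * mC C) i j - (mC C * x) i j := by
    intro C i j x
    simp only [q, map_sub, map_sum, map_mul, MvPolynomial.aeval_X, MvPolynomial.aeval_C]
    rw [Matrix.mul_apply, Matrix.mul_apply]
    rfl
  refine ⟨{p | ∃ (C : Matrix (Fin N) (Fin N) ℚ) (i j : Fin N), (∀ B ∈ S, B * C = C * B) ∧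
    p = q C i j}, fun x => ⟨?_, fun h C hC => ?_⟩⟩
  · rintro hx _ ⟨C, i, j, hC, rfl⟩
    rw [hq, hx C hC, sub_self]
  · ext i j
    have h1 := h _ ⟨C, i, j, hC, rfl⟩
    rw [hq] at h1
    exact sub_eq_zero.1 h1

/-- A complex matrix which commutes with rational matrices, in terms of its components. -/
theorem comm_cmp {y : Matrix (Fin N) (Fin N) ℂ} {B : Matrix (Fin N) (Fin N) ℚ}
    (h : y * mC B = mC B * y) (lam : ℂ →ₗ[ℚ] ℚ) : B * y.map lam = y.map lam * B := by
  ext i j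
  have h1 := congrArg lam (congrFun (congrFun h i) j)
  rw [Matrix.mul_apply, Matrix.mul_apply, map_sum, map_sum] at h1
  rw [Matrix.mul_apply, Matrix.mul_apply]
  have e1 : ∀ m, lam (y i m * mC B m j) = y.map lam i m * B m j := fun m => by
    have : y i m * mC B m j = B m j • y i m := by
      unfold mC
      rw [Matrix.map_apply, mul_comm, Algebra.smul_def]
    rw [this, map_smul, smul_eq_mul, mul_comm, Matrix.map_apply]
  have e2 : ∀ m, lam (mC B i m * y m j) = B i m * y.map lam m j := fun m => by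
    have : mC B i m * y m j = B i m • y m j := by
      unfold mC
      rw [Matrix.map_apply, Algebra.smul_def]
    rw [this, map_smul, smul_eq_mul, Matrix.map_apply]
  simp only [e1, e2] at h1
  exact h1.symm

theorem exists_coordsC {ι : Type} [Fintype ι] (r : ι → ℂ) :
    ∃ (s : Finset (Basis.ofVectorSpaceIndex ℚ ℂ)), ∀ i, r i =
      ∑ k ∈ s, Basis.ofVectorSpace ℚ ℂ k * (((Basis.ofVectorSpace ℚ ℂ).coord k (r i) : ℚ) : ℂ) := by
  classical
  refine ⟨Finset.univ.biUnion fun i => ((Basis.ofVectorSpace ℚ ℂ).repr (r i)).support, fun i => ?_⟩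
  have h1 := (Basis.ofVectorSpace ℚ ℂ).linearCombination_repr (r i)
  rw [Finsupp.linearCombination_apply, Finsupp.sum_of_support_subset (s :=
    Finset.univ.biUnion fun i => ((Basis.ofVectorSpace ℚ ℂ).repr (r i)).support) _
    (fun k hk => Finset.mem_biUnion.2 ⟨i, Finset.mem_univ _, hk⟩) (fun k a => a • _)
    (fun k _ => zero_smul ℚ _)] at h1
  conv_lhs => rw [← h1]
  refine Finset.sum_congr rfl fun k _ => ?_
  rw [Basis.coord_apply, Rat.smul_def, mul_comm]

/-- The double commutant of commuting matrices is commutative. -/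
theorem dcom_comm {S : Set (Matrix (Fin N) (Fin N) ℚ)} (hS : ∀ B ∈ S, ∀ C ∈ S, B * C = C * B)
    {x y : GL (Fin N) ℂ} (hx : x ∈ dcom S) (hy : y ∈ dcom S) : x * y = y * x := by
  have h1 : ∀ B ∈ S, (y : Matrix (Fin N) (Fin N) ℂ) * mC B = mC B * y := fun B hB =>
    hy B fun C hC => hS C hC B hB
  obtain ⟨s, hs⟩ := exists_coordsC (fun p : Fin N × Fin N =>
    (y : Matrix (Fin N) (Fin N) ℂ) p.1 p.2)
  have h2 : (y : Matrix (Fin N) (Fin N) ℂ) = ∑ k ∈ s, Basis.ofVectorSpace ℚ ℂ k •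
      mC ((y : Matrix (Fin N) (Fin N) ℂ).map ((Basis.ofVectorSpace ℚ ℂ).coord k)) := by
    ext i j
    rw [Matrix.sum_apply]
    have h3 := hs (i, j)
    simp only at h3
    rw [h3]
    refine Finset.sum_congr rfl fun k _ => ?_
    unfold mC
    rw [Matrix.smul_apply, Matrix.map_apply, Matrix.map_apply, smul_eq_mul]
    rfl
  have h3 : (x : Matrix (Fin N) (Fin N) ℂ) * y = y * x := by
    rw [h2, Finset.mul_sum, Finset.sum_mul]
    refine Finset.sum_congr rfl fun k _ => ?_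
    rw [Matrix.mul_smul, Matrix.smul_mul]
    congr 1
    exact hx _ fun B hB => comm_cmp (h1 B hB) _
  exact Units.ext h3

/-- The group which contains the Hodge structure. -/
theorem exists_comm_group (hu : LinearIndependent ℚ u)
    (hHM : ∀ z : ℂ, z ≠ 0 → ∃ M, IsHM A u z M)
    (hmain : gU A (Submodule.span ℚ (Set.range u)) ≤
      nU A (Submodule.span ℚ (Set.range u)) ⊔ cU A (Submodule.span ℚ (Set.range u))) :
    ∃ G : Subgroup (GL (Fin N) ℂ), (∃ I : Set (MvPolynomial (Fin N × Fin N) ℚ),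
      ∀ x : GL (Fin N) ℂ, x ∈ G ↔ ∀ p ∈ I, MvPolynomial.aeval
        (fun b : Fin N × Fin N => (x : Matrix (Fin N) (Fin N) ℂ) b.1 b.2) p = 0) ∧
      (∀ x ∈ G, ∀ y ∈ G, x * y = y * x) ∧
      ∀ (z : ℂ) (M : Matrix (Fin N) (Fin N) ℝ), IsHM A u z M → ∀ (c : ℂ) (x : GL (Fin N) ℂ),
        (x : Matrix (Fin N) (Fin N) ℂ) = c • M.map (algebraMap ℝ ℂ) → x ∈ G := by
  obtain ⟨R, hR1, hR2⟩ := exists_JU hu fun θ => hHM _ (Complex.exp_ne_zero _)
  have hmat : ∀ f : ℝ →ₗ[ℚ] ℚ, IsMat u (A.cmpE f AbVar.JJ) (R.map f) := fun f i =>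
    dact_JJ hR1 f i
  have hg : ∀ f : ℝ →ₗ[ℚ] ℚ, A.cmpE f AbVar.JJ ∈ gU A (Submodule.span ℚ (Set.range u)) := fun f =>
    ⟨A.MA_le_NA (A.J_mem f), fun φ hφ => (hmat f).mem hφ⟩
  let S : Set (Matrix (Fin N) (Fin N) ℚ) := {B | ∃ f : ℝ →ₗ[ℚ] ℚ, B = R.map f}
  have hS : ∀ B ∈ S, ∀ C ∈ S, B * C = C * B := by
    rintro _ ⟨f, rfl⟩ _ ⟨f', rfl⟩
    have e1 : IsMat u (A.cmpE f' AbVar.JJ * A.cmpE f AbVar.JJ -
        A.cmpE f AbVar.JJ * A.cmpE f' AbVar.JJ) 0 := by
      intro i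
      have e2 := gU_comm hmain (hg f) (hg f') (Submodule.subset_span ⟨i, rfl⟩)
      rw [← dact_br, e2, sub_self]
      exact (Finset.sum_eq_zero fun j _ => by rw [Matrix.zero_apply, zero_smul]).symm
    have e2 := e1.unique hu ((hmat f').br (hmat f))
    exact (sub_eq_zero.1 e2.symm)
  refine ⟨dcom S, dcom_alg S, fun x hx y hy => dcom_comm hS hx hy, fun z M hM c x hx C hC => ?_⟩
  have e1 : R * C.map (algebraMap ℚ ℝ) = C.map (algebraMap ℚ ℝ) * R := by
    ext i j
    refine sub_eq_zero.1 (exists_sep fun f => ?_)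
    have e2 := congrFun (congrFun (hC _ ⟨f, rfl⟩) i) j
    rw [Matrix.mul_apply, Matrix.mul_apply] at e2
    rw [map_sub, Matrix.mul_apply, Matrix.mul_apply, map_sum, map_sum, sub_eq_zero]
    have e3 : ∀ m, f (R i m * C.map (algebraMap ℚ ℝ) m j) = R.map f i m * C m j := fun m => by
      have : R i m * C.map (algebraMap ℚ ℝ) m j = C m j • R i m := by
        rw [Matrix.map_apply, mul_comm, Algebra.smul_def]
      rw [this, map_smul, smul_eq_mul, mul_comm, Matrix.map_apply]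
    have e4 : ∀ m, f (C.map (algebraMap ℚ ℝ) i m * R m j) = C i m * R.map f m j := fun m => by
      have : C.map (algebraMap ℚ ℝ) i m * R m j = C i m • R m j := by
        rw [Matrix.map_apply, Algebra.smul_def]
      rw [this, map_smul, smul_eq_mul, Matrix.map_apply]
    simp only [e3, e4]
    exact e2
  have e2 := comm_hm hu hHM hR2 e1 hM
  have e3 : (C.map (algebraMap ℚ ℝ)).map (algebraMap ℝ ℂ) = mC C := by
    ext i j
    unfold mC
    simp
  have e4 := congrArg (fun X : Matrix (Fin N) (Fin N) ℝ => X.map (algebraMap ℝ ℂ)) e2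
  simp only [Matrix.map_mul, e3] at e4
  rw [hx, Matrix.smul_mul, Matrix.mul_smul, e4]

end Pool.Agent.R917
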