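import Pool.Agent.R917.HSub

set_option autoImplicit false
set_option linter.unusedSectionVars false

/-!
# The Mumford-Tate group of a Hodge substructure of a tensor power
-/

open Module Function TensorProduct Matrix

noncomputable section

namespace Pool.Agent.R917

open Pool.Agent.Y102 Pool.Agent.W516.DR Pool.Agent.H204R3.GP Pool.Agent.W516.KC
  Pool.Agent.H204R3.SP

variable {g : ℕ} {A : AbVar g} {κ : Type} [Fintype κ] [DecidableEq κ] {N : ℕ}
  {u : Fin N → MultilinearMap ℚ (fun _ : κ => A.H1) ℚ}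

theorem IsHM.unique (hu : LinearIndependent ℚ u) {z : ℂ} {M M' : Matrix (Fin N) (Fin N) ℝ}
    (h : IsHM A u z M) (h' : IsHM A u z M') : M = M' := by
  obtain ⟨L, hL⟩ := exists_dual hu
  ext m i
  rw [h.eq hL, h'.eq hL]

theorem IsHM.mul {z w : ℂ} {M M' : Matrix (Fin N) (Fin N) ℝ}
    (h : IsHM A u z M) (h' : IsHM A u w M') : IsHM A u (z * w) (M' * M) := by
  intro i v
  have h1 : (fun l => (z * w) • v l) = fun l => z • (w • v l) := by
    funext l
    rw [mul_smul]
  rw [h1, h i (fun l => w • v l)]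
  simp only [h' _ v, Finset.mul_sum]
  rw [Finset.sum_comm]
  refine Finset.sum_congr rfl fun j _ => ?_
  rw [Matrix.mul_apply, Finset.sum_mul]
  exact Finset.sum_congr rfl fun m _ => by ring

theorem isHM_one : IsHM A u 1 1 := by
  intro i v
  simp only [one_smul, Matrix.one_apply, ite_mul, one_mul, zero_mul]
  rw [Finset.sum_ite_eq' Finset.univ i]
  simp

theorem isHM_real (r : ℝ) : IsHM A u (r : ℂ) ((r ^ Fintype.card κ) • 1) := by
  intro i v
  have h1 : (fun l => (r : ℂ) • v l) = fun l => r • v l := by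
    funext l
    rw [Complex.coe_smul]
  rw [h1, (A.Phi (u i)).map_smul_univ (fun _ => r) v, Finset.prod_const, Finset.card_univ,
    smul_eq_mul]
  have h2 := isHM_one (A := A) (u := u) i v
  simp only [one_smul] at h2
  conv_lhs => rw [h2]
  rw [Finset.mul_sum]
  refine Finset.sum_congr rfl fun j _ => ?_
  rw [Matrix.smul_apply, smul_eq_mul]
  ring

/-- A one-parameter group is the exponential of its derivative. -/
theorem exp_of_der' {𝔸 : Type} [NormedRing 𝔸] [NormedAlgebra ℝ 𝔸] [CompleteSpace 𝔸] {M : ℝ → 𝔸}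
    {R : 𝔸} (h0 : M 0 = 1) (hadd : ∀ s t, M (s + t) = M s * M t) (hM0 : HasDerivAt M R 0) (θ : ℝ) :
    M θ = NormedSpace.exp (θ • R) := by
  have hM : ∀ θ, HasDerivAt M (M θ * R) θ := by
    intro θ
    have h1 : M = fun s => M θ * M (s - θ) := by
      funext s
      rw [← hadd, add_sub_cancel]
    have h2 : HasDerivAt (fun s => M (s - θ)) R θ := by
      have h3 := HasDerivAt.scomp (h := fun s : ℝ => s - θ) (h' := (1 : ℝ)) (g₁ := M) (g₁' := R) θ
        (by simpa using hM0) ((hasDerivAt_id θ).sub_const θ)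
      rw [one_smul] at h3
      exact h3
    have h4 := h2.const_mul (M θ)
    rw [← h1] at h4
    exact h4
  have hE : ∀ θ : ℝ, HasDerivAt (fun s : ℝ => NormedSpace.exp (s • (-R)))
      (-R * NormedSpace.exp (θ • (-R))) θ := fun θ => hasDerivAt_exp_smul_const' (-R) θ
  have hprod : ∀ θ, HasDerivAt (fun s : ℝ => M s * NormedSpace.exp (s • (-R))) 0 θ := by
    intro θ
    have h1 := (hM θ).fun_mul (hE θ)
    have h2 : M θ * R * NormedSpace.exp (θ • (-R)) + M θ * (-R * NormedSpace.exp (θ • (-R))) = 0 := by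
      noncomm_ring
    rwa [h2] at h1
  have hconst : ∀ θ, M θ * NormedSpace.exp (θ • (-R)) = 1 := by
    intro θ
    have h1 := is_const_of_deriv_eq_zero (f := fun s : ℝ => M s * NormedSpace.exp (s • (-R)))
      (fun s => (hprod s).differentiableAt) (fun s => (hprod s).deriv) θ 0
    have h2 : M 0 * NormedSpace.exp ((0 : ℝ) • (-R)) = 1 := by
      rw [h0, zero_smul, NormedSpace.exp_zero, mul_one]
    exact h1.trans h2
  have h2 : NormedSpace.exp (θ • (-R)) * NormedSpace.exp (θ • R) = 1 := by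
    have hc : Commute (θ • (-R)) (θ • R) :=
      ((Commute.refl R).neg_left.smul_left θ).smul_right θ
    let _ : NormedAlgebra ℚ 𝔸 := NormedAlgebra.restrictScalars ℚ ℝ 𝔸
    rw [← NormedSpace.exp_add_of_commute hc, smul_neg, neg_add_cancel, NormedSpace.exp_zero]
  calc M θ = M θ * (NormedSpace.exp (θ • (-R)) * NormedSpace.exp (θ • R)) := by rw [h2, mul_one]
    _ = _ := by rw [← mul_assoc, hconst, one_mul]

theorem hasDerivAt_span {𝔸 ι : Type} [NormedRing 𝔸] [NormedAlgebra ℝ 𝔸] (s : Finset ι) (e : ι → 𝔸)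
    (f : ι → ℝ → ℝ) (f' : ι → ℝ) (h : ∀ i, HasDerivAt (f i) (f' i) 0) :
    HasDerivAt (fun θ => ∑ i ∈ s, f i θ • e i) (∑ i ∈ s, f' i • e i) 0 :=
  HasDerivAt.fun_sum fun i _ => (h i).smul_const _

section norms

attribute [local instance] Matrix.linftyOpNormedRing Matrix.linftyOpNormedAlgebra

theorem exp_of_der {M : ℝ → Matrix (Fin N) (Fin N) ℝ} {R : Matrix (Fin N) (Fin N) ℝ}
    (h0 : M 0 = 1) (hadd : ∀ s t, M (s + t) = M s * M t)
    (hd : ∀ i j, HasDerivAt (fun θ => M θ j i) (R j i) 0) (θ : ℝ) :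
    M θ = NormedSpace.exp (θ • R) := by
  have key : ∀ X : Matrix (Fin N) (Fin N) ℝ, X = ∑ p : Fin N × Fin N, X p.1 p.2 •
      (Matrix.single p.1 p.2 (1 : ℝ)) := by
    intro X
    conv_lhs => rw [Matrix.matrix_eq_sum_single X]
    rw [Fintype.sum_prod_type]
    refine Finset.sum_congr rfl fun j _ => Finset.sum_congr rfl fun i _ => ?_
    rw [Matrix.smul_single, smul_eq_mul, mul_one]
  have h1 := hasDerivAt_span (𝔸 := Matrix (Fin N) (Fin N) ℝ) Finset.univ
    (fun p : Fin N × Fin N => Matrix.single p.1 p.2 (1 : ℝ)) (fun p θ => M θ p.1 p.2)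
    (fun p => R p.1 p.2) (fun p => hd p.2 p.1)
  have h2 : (fun θ => ∑ p : Fin N × Fin N, M θ p.1 p.2 • (Matrix.single p.1 p.2 (1 : ℝ))) = M := by
    funext θ
    exact (key (M θ)).symm
  rw [← key R] at h1
  rw [h2] at h1
  exact exp_of_der' h0 hadd h1 θ

/-- The Hodge structure commutes with everything that commutes with its derivative. -/
theorem comm_hm (hu : LinearIndependent ℚ u)
    (hH : ∀ z : ℂ, z ≠ 0 → ∃ M, IsHM A u z M) {R : Matrix (Fin N) (Fin N) ℝ}
    (hR : ∀ M : ℝ → Matrix (Fin N) (Fin N) ℝ,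
      (∀ θ : ℝ, IsHM A u (Complex.exp (θ * Complex.I)) (M θ)) →
        ∀ i j, HasDerivAt (fun θ => M θ j i) (R j i) 0) {C : Matrix (Fin N) (Fin N) ℝ}
    (hC : R * C = C * R) {z : ℂ} {M : Matrix (Fin N) (Fin N) ℝ}
    (hM : IsHM A u z M) : M * C = C * M := by
  have hexp : ∀ θ : ℝ, ∃ M, IsHM A u (Complex.exp (θ * Complex.I)) M := fun θ =>
    hH _ (Complex.exp_ne_zero _)
  choose E hE using hexp
  have h1 := hR E hE
  have h2 := exp_of_der (M := E) (R := R) ?_ ?_ h1 (Complex.arg z)
  · have h3 : IsHM A u z (E (Complex.arg z) * ((‖z‖ ^ Fintype.card κ) • 1)) := by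
      have h4 := (isHM_real (A := A) (u := u) ‖z‖).mul (hE (Complex.arg z))
      rwa [Complex.norm_mul_exp_arg_mul_I] at h4
    rw [hM.unique hu h3, h2]
    have h5 : Commute (NormedSpace.exp (Complex.arg z • R)) C := by
      have h6 : Commute (Complex.arg z • R) C := (show Commute R C from hC).smul_left _
      exact h6.exp_left
    rw [Matrix.mul_smul, Matrix.mul_one, Matrix.smul_mul, Matrix.mul_smul, h5.eq]
  · refine (hE 0).unique hu ?_
    have h3 : Complex.exp (((0 : ℝ) : ℂ) * Complex.I) = 1 := by simp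
    rw [h3]
    exact isHM_one
  · intro s t
    refine (hE (s + t)).unique hu ?_
    have h3 : Complex.exp (((s + t : ℝ) : ℂ) * Complex.I) =
        Complex.exp (t * Complex.I) * Complex.exp (s * Complex.I) := by
      rw [← Complex.exp_add]
      congr 1
      push_cast
      ring
    rw [h3]
    exact (hE t).mul (hE s)

end norms

end Pool.Agent.R917
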