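import Pool.Agent.R917.Tens
import Pool.Agent.R917.FullX0

set_option autoImplicit false
set_option linter.unusedSectionVars false

/-!
# The action of the Lie algebra on a subspace of the tensors on which the periods are commutative
-/

open Module Function TensorProduct

noncomputable section

namespace Pool.Agent.R917

open Pool.Agent.Y102 Pool.Agent.W516.DR Pool.Agent.H204R3.GP Pool.Agent.W516.KC
  Pool.Agent.H204R3.SP

variable {g : ℕ} (A : AbVar g) {κ : Type} [Fintype κ] [DecidableEq κ]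
  (U : Submodule ℚ (MultilinearMap ℚ (fun _ : κ => A.H1) ℚ))

/-- The elements of the Lie algebra which preserve `U`. -/
def gU : Submodule ℚ (Module.End ℚ A.H1) where
  carrier := {X | X ∈ A.NA ∧ ∀ φ ∈ U, dact X φ ∈ U}
  zero_mem' := ⟨A.NA.zero_mem, fun φ _ => by rw [dact_zero]; exact U.zero_mem⟩
  add_mem' := fun {X Y} hX hY => ⟨A.NA.add_mem hX.1 hY.1, fun φ hφ => by
    rw [dact_add]; exact U.add_mem (hX.2 φ hφ) (hY.2 φ hφ)⟩
  smul_mem' := fun c X hX => ⟨A.NA.smul_mem c hX.1, fun φ hφ => by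
    rw [dact_smul]; exact U.smul_mem c (hX.2 φ hφ)⟩

/-- The elements of the Lie algebra which annihilate `U`. -/
def nU : Submodule ℚ (Module.End ℚ A.H1) where
  carrier := {X | X ∈ A.NA ∧ ∀ φ ∈ U, dact X φ = 0}
  zero_mem' := ⟨A.NA.zero_mem, fun φ _ => dact_zero φ⟩
  add_mem' := fun {X Y} hX hY => ⟨A.NA.add_mem hX.1 hY.1, fun φ hφ => by
    rw [dact_add, hX.2 φ hφ, hY.2 φ hφ, add_zero]⟩
  smul_mem' := fun c X hX => ⟨A.NA.smul_mem c hX.1, fun φ hφ => by
    rw [dact_smul, hX.2 φ hφ, smul_zero]⟩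

/-- The elements of the centre of the Lie algebra which preserve `U`. -/
def cU : Submodule ℚ (Module.End ℚ A.H1) := A.CN ⊓ gU A U

variable {A} {U}

theorem nU_le : nU A U ≤ gU A U := fun X hX => ⟨hX.1, fun φ hφ => by
  rw [hX.2 φ hφ]; exact U.zero_mem⟩

theorem gU_br {X Y : Module.End ℚ A.H1} (hX : X ∈ gU A U) (hY : Y ∈ gU A U) :
    X * Y - Y * X ∈ gU A U := by
  refine ⟨A.NA_bracket hX.1 hY.1, fun φ hφ => ?_⟩
  rw [← dact_br]
  exact U.sub_mem (hY.2 _ (hX.2 φ hφ)) (hX.2 _ (hY.2 φ hφ))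

theorem nU_ideal {X Y : Module.End ℚ A.H1} (hX : X ∈ gU A U) (hY : Y ∈ nU A U) :
    X * Y - Y * X ∈ nU A U := by
  refine ⟨A.NA_bracket hX.1 hY.1, fun φ hφ => ?_⟩
  rw [← dact_br, hY.2 φ hφ, hY.2 _ (hX.2 φ hφ), dact_zero', sub_zero]

theorem cU_comm {X Y : Module.End ℚ A.H1} (hX : X ∈ A.NA) (hY : Y ∈ cU A U) : X * Y = Y * X :=
  hY.1.2 X hX

theorem sup_br {X Y : Module.End ℚ A.H1} (hX : X ∈ gU A U) (hY : Y ∈ nU A U ⊔ cU A U) :
    X * Y - Y * X ∈ nU A U := by
  obtain ⟨n, hn, z, hz, rfl⟩ := Submodule.mem_sup.1 hY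
  have h1 := nU_ideal hX hn
  have h2 : X * (n + z) - (n + z) * X = X * n - n * X := by
    rw [mul_add, add_mul, cU_comm hX.1 hz]
    abel
  rw [h2]
  exact h1

theorem sup_le_gU : nU A U ⊔ cU A U ≤ gU A U := sup_le nU_le inf_le_right

/-- A linear functional on a space with a nondegenerate trace form. -/
theorem exists_trace_rep {𝔮 : Submodule ℚ (Module.End ℚ A.H1)}
    (hq : Pool.Agent.W516.KC2.TraceNondeg 𝔮) (Y : Module.End ℚ A.H1) :
    ∃ q ∈ 𝔮, ∀ Z ∈ 𝔮, LinearMap.trace ℚ A.H1 (q * Z) = LinearMap.trace ℚ A.H1 (Y * Z) := by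
  let B : 𝔮 →ₗ[ℚ] Module.Dual ℚ 𝔮 :=
    { toFun := fun q =>
        { toFun := fun Z => LinearMap.trace ℚ A.H1 ((q : Module.End ℚ A.H1) * Z)
          map_add' := fun Z Z' => by rw [Submodule.coe_add, mul_add, map_add]
          map_smul' := fun c Z => by
            rw [Submodule.coe_smul, mul_smul_comm, map_smul, RingHom.id_apply] }
      map_add' := fun q q' => by
        refine LinearMap.ext fun Z => ?_
        change LinearMap.trace ℚ A.H1 (((q + q' : 𝔮) : Module.End ℚ A.H1) * Z) =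
          LinearMap.trace ℚ A.H1 ((q : Module.End ℚ A.H1) * Z) +
            LinearMap.trace ℚ A.H1 ((q' : Module.End ℚ A.H1) * Z)
        rw [Submodule.coe_add, add_mul, map_add]
      map_smul' := fun c q => by
        refine LinearMap.ext fun Z => ?_
        change LinearMap.trace ℚ A.H1 (((c • q : 𝔮) : Module.End ℚ A.H1) * Z) =
          c • LinearMap.trace ℚ A.H1 ((q : Module.End ℚ A.H1) * Z)
        rw [Submodule.coe_smul, smul_mul_assoc, map_smul] }
  have hinj : Function.Injective B := by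
    rw [injective_iff_map_eq_zero]
    intro q h0
    have h1 : ∀ Z ∈ 𝔮, LinearMap.trace ℚ A.H1 ((q : Module.End ℚ A.H1) * Z) = 0 := fun Z hZ =>
      congrArg (fun f : Module.Dual ℚ 𝔮 => f ⟨Z, hZ⟩) h0
    exact Subtype.ext (hq q q.2 h1)
  have hsurj : Function.Surjective B := by
    rw [← LinearMap.range_eq_top]
    apply Submodule.eq_top_of_finrank_eq
    rw [LinearMap.finrank_range_of_inj hinj]
    exact (Subspace.dual_finrank_eq (K := ℚ) (V := 𝔮)).symm
  let f : Module.Dual ℚ 𝔮 :=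
    { toFun := fun Z => LinearMap.trace ℚ A.H1 (Y * Z)
      map_add' := fun Z Z' => by rw [Submodule.coe_add, mul_add, map_add]
      map_smul' := fun c Z => by
        rw [Submodule.coe_smul, mul_smul_comm, map_smul, RingHom.id_apply] }
  obtain ⟨q, hqf⟩ := hsurj f
  exact ⟨q, q.2, fun Z hZ => congrArg (fun f : Module.Dual ℚ 𝔮 => f ⟨Z, hZ⟩) hqf⟩

/-- **Structure theorem.** If the logarithmic derivatives of the periods are in a subalgebra whose
image in the endomorphisms of `U` is commutative, then the action on `U` of the whole Lie algebra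
comes from its centre. -/
theorem gU_le {𝔩 : Submodule ℚ (Module.End ℚ A.H1)} (hle : 𝔩 ≤ gU A U)
    (hbr : ∀ X ∈ 𝔩, ∀ Y ∈ 𝔩, X * Y - Y * X ∈ 𝔩)
    (h0 : ∀ (D : Derivation QBar ℂ ℂ) (lam : ℂ →ₗ[ℚ] ℚ), X0 A.basis tau D lam ∈ 𝔩)
    (hcom : ∀ X ∈ 𝔩, ∀ Y ∈ 𝔩, X * Y - Y * X ∈ nU A U) : gU A U ≤ nU A U ⊔ cU A U := by
  have hF : A.Full 𝔩 := full_of_X0 A (fun X hX => (hle hX).1) hbr h0
  have h1 : 𝔩 ≤ nU A U ⊔ cU A U := by
    intro X hX
    obtain ⟨Z, hZ, d, hd, rfl, hZc⟩ := hF.dec hX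
    have hd' : d ∈ nU A U := by
      have h2 : der 𝔩 ≤ nU A U := by
        unfold der
        rw [Submodule.span_le]
        rintro _ ⟨X, hX, Y, hY, rfl⟩
        exact hcom X hX Y hY
      exact h2 hd
    have hZ' : Z ∈ cU A U := by
      refine ⟨⟨(hle hZ).1, fun Y hY => ?_⟩, hle hZ⟩
      exact hF.comm Z (fun X hX => (hZc X hX).symm) Y hY
    exact Submodule.add_mem _ (Submodule.mem_sup_right hZ') (Submodule.mem_sup_left hd')
  have hq : A.Full (nU A U ⊔ cU A U) := by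
    refine full_of_X0 A (fun X hX => (sup_le_gU hX).1) (fun X hX Y hY => ?_) fun D lam => h1 (h0 D lam)
    exact Submodule.mem_sup_left (sup_br (sup_le_gU hX) hY)
  intro Y hY
  obtain ⟨q, hqm, hqt⟩ := exists_trace_rep hq.trace Y
  have hy : Y - q ∈ gU A U := (gU A U).sub_mem hY (sup_le_gU hqm)
  have hcomm : ∀ Z ∈ nU A U ⊔ cU A U, Z * (Y - q) = (Y - q) * Z := by
    intro Z hZ
    have h2 : (Y - q) * Z - Z * (Y - q) ∈ nU A U ⊔ cU A U :=
      Submodule.mem_sup_left (sup_br hy hZ)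
    have h3 : (Y - q) * Z - Z * (Y - q) = 0 := by
      refine hq.trace _ h2 fun Z' hZ' => ?_
      have h4 : Z * Z' - Z' * Z ∈ nU A U ⊔ cU A U := hq.br Z hZ Z' hZ'
      have h5 := hqt _ h4
      have h6 : LinearMap.trace ℚ A.H1 (((Y - q) * Z - Z * (Y - q)) * Z') =
          LinearMap.trace ℚ A.H1 ((Y - q) * (Z * Z' - Z' * Z)) := by
        have h7 : LinearMap.trace ℚ A.H1 (Z * (Y - q) * Z') =
            LinearMap.trace ℚ A.H1 ((Y - q) * (Z' * Z)) := by
          rw [mul_assoc, LinearMap.trace_mul_comm, mul_assoc]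
        rw [sub_mul, map_sub, h7, mul_sub, map_sub, mul_assoc]
      rw [h6, sub_mul, map_sub, h5, sub_self]
    exact (sub_eq_zero.1 h3).symm
  have hyc : Y - q ∈ cU A U := ⟨⟨hy.1, hq.comm _ hcomm⟩, hy⟩
  have h8 := Submodule.add_mem _ (Submodule.mem_sup_right (S := nU A U) hyc) hqm
  rwa [sub_add_cancel] at h8

end Pool.Agent.R917
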