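import Mathlib

set_option autoImplicit false
set_option linter.unusedSectionVars false

/-!
# The action of endomorphisms on multilinear forms
-/

open Module Function

noncomputable section

namespace Pool.Agent.R917

variable {k W κ : Type} [Field k] [AddCommGroup W] [Module k W] [Fintype κ] [DecidableEq κ]

/-- The action of an endomorphism as a derivation. -/
def dact (X : Module.End k W) (φ : MultilinearMap k (fun _ : κ => W) k) :
    MultilinearMap k (fun _ : κ => W) k :=
  ∑ j, φ.compLinearMap (fun l => if l = j then X else LinearMap.id)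

theorem dact_apply (X : Module.End k W) (φ : MultilinearMap k (fun _ : κ => W) k) (v : κ → W) :
    dact X φ v = ∑ j, φ (update v j (X (v j))) := by
  unfold dact
  rw [sum_apply]
  refine Finset.sum_congr rfl fun j _ => ?_
  rw [MultilinearMap.compLinearMap_apply]
  congr 1
  funext l
  by_cases h : l = j
  · subst h
    rw [if_pos rfl, update_self]
  · rw [if_neg h, update_of_ne h]
    rfl

theorem dact_add (X Y : Module.End k W) (φ : MultilinearMap k (fun _ : κ => W) k) :
    dact (X + Y) φ = dact X φ + dact Y φ := by
  ext v
  rw [add_apply, dact_apply, dact_apply, dact_apply, ← Finset.sum_add_distrib]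
  exact Finset.sum_congr rfl fun j _ => by rw [LinearMap.add_apply, φ.map_update_add]

theorem dact_sub (X Y : Module.End k W) (φ : MultilinearMap k (fun _ : κ => W) k) :
    dact (X - Y) φ = dact X φ - dact Y φ := by
  ext v
  rw [sub_apply, dact_apply, dact_apply, dact_apply, ← Finset.sum_sub_distrib]
  exact Finset.sum_congr rfl fun j _ => by rw [LinearMap.sub_apply, φ.map_update_sub]

theorem dact_smul (c : k) (X : Module.End k W) (φ : MultilinearMap k (fun _ : κ => W) k) :
    dact (c • X) φ = c • dact X φ := by
  ext v
  rw [smul_apply, dact_apply, dact_apply, Finset.smul_sum]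
  exact Finset.sum_congr rfl fun j _ => by rw [LinearMap.smul_apply, φ.map_update_smul]

theorem dact_zero (φ : MultilinearMap k (fun _ : κ => W) k) : dact 0 φ = 0 := by
  have h := dact_smul 0 (0 : Module.End k W) φ
  rwa [zero_smul, zero_smul] at h

theorem dact_one (φ : MultilinearMap k (fun _ : κ => W) k) :
    dact 1 φ = (Fintype.card κ : k) • φ := by
  ext v
  rw [dact_apply, smul_apply]
  simp only [Module.End.one_apply, update_eq_self]
  rw [Finset.sum_const, Finset.card_univ, nsmul_eq_mul, smul_eq_mul]

theorem dact_add' (X : Module.End k W) (φ ψ : MultilinearMap k (fun _ : κ => W) k) :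
    dact X (φ + ψ) = dact X φ + dact X ψ := by
  ext v
  simp only [dact_apply, add_apply, Finset.sum_add_distrib]

theorem dact_smul' (c : k) (X : Module.End k W) (φ : MultilinearMap k (fun _ : κ => W) k) :
    dact X (c • φ) = c • dact X φ := by
  ext v
  simp only [dact_apply, smul_apply, Finset.smul_sum]

theorem dact_zero' (X : Module.End k W) :
    dact X (0 : MultilinearMap k (fun _ : κ => W) k) = 0 := by
  have h := dact_smul' 0 X (0 : MultilinearMap k (fun _ : κ => W) k)
  rwa [zero_smul, zero_smul] at h

/-- The action as a linear map. -/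
def dactL (κ : Type) [Fintype κ] [DecidableEq κ] (X : Module.End k W) :
    MultilinearMap k (fun _ : κ => W) k →ₗ[k] MultilinearMap k (fun _ : κ => W) k where
  toFun := dact X
  map_add' := dact_add' X
  map_smul' c φ := dact_smul' c X φ

theorem dactL_apply (X : Module.End k W) (φ : MultilinearMap k (fun _ : κ => W) k) :
    dactL κ X φ = dact X φ := rfl

theorem dact_sum (X : Module.End k W) {ι : Type} (s : Finset ι) (c : ι → k)
    (φ : ι → MultilinearMap k (fun _ : κ => W) k) :
    dact X (∑ i ∈ s, c i • φ i) = ∑ i ∈ s, c i • dact X (φ i) := by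
  rw [← dactL_apply, map_sum]
  exact Finset.sum_congr rfl fun i _ => by rw [map_smul, dactL_apply]

/-- The commutator of two actions. -/
theorem dact_br (X Y : Module.End k W) (φ : MultilinearMap k (fun _ : κ => W) k) :
    dact X (dact Y φ) - dact Y (dact X φ) = dact (Y * X - X * Y) φ := by
  ext v
  rw [sub_apply]
  have key : ∀ X Y : Module.End k W, dact X (dact Y φ) v =
      (∑ j, ∑ l ∈ Finset.univ.erase j, φ (update (update v j (X (v j))) l (Y (v l)))) +
        ∑ j, φ (update v j (Y (X (v j)))) := by
    intro X Y
    rw [dact_apply, ← Finset.sum_add_distrib]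
    refine Finset.sum_congr rfl fun j _ => ?_
    rw [dact_apply, ← Finset.add_sum_erase _ _ (Finset.mem_univ j), update_self, update_idem,
      add_comm]
    congr 1
    refine Finset.sum_congr rfl fun l hl => ?_
    rw [update_of_ne (Finset.ne_of_mem_erase hl)]
  have hsym : (∑ j, ∑ l ∈ Finset.univ.erase j, φ (update (update v j (X (v j))) l (Y (v l)))) =
      ∑ j, ∑ l ∈ Finset.univ.erase j, φ (update (update v j (Y (v j))) l (X (v l))) := by
    have h3 : ∀ (A B : Module.End k W), ∑ j, ∑ l ∈ Finset.univ.erase j,
        φ (update (update v j (A (v j))) l (B (v l))) =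
        ∑ j, ∑ l, if l ≠ j then φ (update (update v j (A (v j))) l (B (v l))) else 0 := by
      intro A B
      refine Finset.sum_congr rfl fun j _ => ?_
      rw [← Finset.sum_filter]
      refine Finset.sum_congr ?_ fun _ _ => rfl
      ext l
      simp
    rw [h3, h3, Finset.sum_comm]
    refine Finset.sum_congr rfl fun j _ => Finset.sum_congr rfl fun l _ => ?_
    by_cases h : l = j
    · subst h
      simp
    · rw [if_pos h, if_pos (Ne.symm h), update_comm (Ne.symm h)]
  rw [key X Y, key Y X, hsym, add_sub_add_left_eq_sub, dact_apply, ← Finset.sum_sub_distrib]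
  refine Finset.sum_congr rfl fun j _ => ?_
  rw [LinearMap.sub_apply, φ.map_update_sub]
  rfl

end Pool.Agent.R917
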